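import Pool.Agent.Lib.MP_5e14a0_co.Norm

set_option autoImplicit false
set_option linter.unusedSectionVars false
set_option linter.style.haveILetI false

namespace Pool.Agent.MultConj

section
variable {q : ℕ} [Fact q.Prime] {K : Type} [AddCommGroup K] [Fintype K] [DecidableEq K]

/-- indicator -/
def ind (D : Finset (ZMod q × K)) (x : ZMod q) (y : K) : ℤ := if (x, y) ∈ D then 1 else 0

/-- invariance under the squares of the first coordinate -/
def QInv (D : Finset (ZMod q × K)) : Prop :=
  ∀ u : ZMod q, u ≠ 0 → IsSquare u → ∀ x y, ind D (u * x) y = ind D x y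

def al (D : Finset (ZMod q × K)) (y : K) : ℤ := 2 * ind D 0 y - ind D 1 y - ind D (-1) y
def ee (D : Finset (ZMod q × K)) (y : K) : ℤ := ind D 1 y + ind D (-1) y
def De (D : Finset (ZMod q × K)) (y : K) : ℤ := ind D 1 y - ind D (-1) y

theorem ind_01 (D : Finset (ZMod q × K)) (x : ZMod q) (y : K) : ind D x y = 0 ∨ ind D x y = 1 := by
  unfold ind
  split_ifs
  · right; rfl
  · left; rfl

theorem chi_neg_one (h4 : q % 4 = 3) : quadraticChar (ZMod q) (-1) = -1 := by
  rw [quadraticChar_neg_one_iff_not_isSquare]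
  intro h
  have := ZMod.exists_sq_eq_neg_one_iff (p := q)
  rw [this] at h
  exact h h4

theorem ringChar_ne_two (h4 : q % 4 = 3) : ringChar (ZMod q) ≠ 2 := by
  rw [ZMod.ringChar_zmod_n]
  omega

theorem ind_formula (h4 : q % 4 = 3) {D : Finset (ZMod q × K)} (hD : QInv D) (x : ZMod q) (y : K) :
    2 * ind D x y = (if x = 0 then (1 : ℤ) else 0) * al D y + ee D y
      + quadraticChar (ZMod q) x * De D y := by
  unfold al ee De
  by_cases hx : x = 0
  · subst hx
    rw [if_pos rfl, MulChar.map_zero]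
    ring
  · rw [if_neg hx]
    rcases quadraticChar_dichotomy hx with h | h
    · have hs : IsSquare x := (quadraticChar_one_iff_isSquare hx).mp h
      have := hD x hx hs 1 y
      rw [mul_one] at this
      rw [h, this]; ring
    · have h2 : quadraticChar (ZMod q) (-x) = 1 := by
        rw [← neg_one_mul, map_mul, chi_neg_one h4, h]; norm_num
      have hnx : -x ≠ 0 := neg_ne_zero.mpr hx
      have hs : IsSquare (-x) := (quadraticChar_one_iff_isSquare hnx).mp h2
      have := hD (-x) hnx hs (-1) y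
      rw [neg_mul_neg, mul_one] at this
      rw [h, this]; ring

theorem sum_delta (x : ZMod q) (f : ZMod q → ℤ) :
    ∑ z : ZMod q, (if x + z = 0 then (1 : ℤ) else 0) * f z = f (-x) := by
  rw [Finset.sum_eq_single (-x)]
  · rw [if_pos (by ring), one_mul]
  · intro b _ hb
    rw [if_neg, zero_mul]
    intro h
    exact hb (by linear_combination h)
  · intro h; exact absurd (Finset.mem_univ _) h

theorem sum_shift (x : ZMod q) (f : ZMod q → ℤ) : ∑ z : ZMod q, f (x + z) = ∑ z, f z :=
  Fintype.sum_equiv (Equiv.addLeft x) _ _ (fun _ => rfl)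

/-- Jacobi type sum -/
def J (x : ZMod q) : ℤ := ∑ z : ZMod q, quadraticChar (ZMod q) (x + z) * quadraticChar (ZMod q) z

theorem J_neg (x : ZMod q) : J (-x) = J x := by
  unfold J
  rw [← sum_shift x (fun z => quadraticChar (ZMod q) (-x + z) * quadraticChar (ZMod q) z)]
  refine Finset.sum_congr rfl (fun z _ => ?_)
  rw [neg_add_cancel_left, mul_comm]

theorem slice_sum (h4 : q % 4 = 3) (x : ZMod q) (hx : x ≠ 0) (al' ee' De' al ee De : ℤ) :
    ∑ z : ZMod q, ((if x + z = 0 then (1 : ℤ) else 0) * al' + ee' + quadraticChar (ZMod q) (x + z) * De')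
      * ((if z = 0 then (1 : ℤ) else 0) * al + ee + quadraticChar (ZMod q) z * De)
    = al' * ee + al' * De * quadraticChar (ZMod q) (-x) + ee' * al + q * (ee' * ee)
      + De' * al * quadraticChar (ZMod q) x + De' * De * J x := by
  have hs0 : ∑ z : ZMod q, quadraticChar (ZMod q) z = 0 := quadraticChar_sum_zero (ringChar_ne_two h4)
  have e1 : ∀ z : ZMod q, ((if x + z = 0 then (1 : ℤ) else 0) * al' + ee' + quadraticChar (ZMod q) (x + z) * De')
      * ((if z = 0 then (1 : ℤ) else 0) * al + ee + quadraticChar (ZMod q) z * De)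
      = (if x + z = 0 then (1 : ℤ) else 0) * (al' * ((if z = 0 then (1 : ℤ) else 0) * al + ee + quadraticChar (ZMod q) z * De))
        + (if (0 : ZMod q) + z = 0 then (1 : ℤ) else 0) * (ee' * al + De' * al * quadraticChar (ZMod q) (x + z))
        + ee' * ee + (ee' * De) * quadraticChar (ZMod q) z
        + (De' * ee) * quadraticChar (ZMod q) (x + z)
        + (De' * De) * (quadraticChar (ZMod q) (x + z) * quadraticChar (ZMod q) z) := by
    intro z
    rw [zero_add]
    ring
  rw [Finset.sum_congr rfl (fun z _ => e1 z)]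
  rw [Finset.sum_add_distrib, Finset.sum_add_distrib, Finset.sum_add_distrib, Finset.sum_add_distrib,
    Finset.sum_add_distrib, sum_delta, sum_delta, Finset.sum_const (ee' * ee), ← Finset.mul_sum,
    ← Finset.mul_sum, ← Finset.mul_sum,
    sum_shift x (fun z => quadraticChar (ZMod q) z), hs0, Finset.card_univ, ZMod.card]
  rw [if_neg (neg_ne_zero.mpr hx), neg_zero, add_zero]
  unfold J
  rw [nsmul_eq_mul]
  ring

theorem Cnt_conv_prod (A B : Finset (ZMod q × K)) (x : ZMod q) (y : K) :
    (Cnt A B (x, y) : ℤ) = ∑ y2 : K, ∑ z : ZMod q, ind A (x + z) (y + y2) * ind B z y2 := by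
  rw [Cnt_eq_conv, Fintype.sum_prod_type_right]
  rfl

theorem diff_formula (h4 : q % 4 = 3) {A B : Finset (ZMod q × K)} (hA : QInv A) (hB : QInv B)
    (y : K) :
    2 * ((Cnt A B (1, y) : ℤ) - Cnt A B (-1, y))
      = ∑ y2 : K, (De A (y + y2) * al B y2 - al A (y + y2) * De B y2) := by
  have hne : (1 : ZMod q) ≠ 0 := one_ne_zero
  have key : ∀ x : ZMod q, x ≠ 0 → 4 * (Cnt A B (x, y) : ℤ) = ∑ y2 : K,
      (al A (y + y2) * ee B y2 + al A (y + y2) * De B y2 * quadraticChar (ZMod q) (-x)
        + ee A (y + y2) * al B y2 + q * (ee A (y + y2) * ee B y2)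
        + De A (y + y2) * al B y2 * quadraticChar (ZMod q) x
        + De A (y + y2) * De B y2 * J x) := by
    intro x hx
    rw [Cnt_conv_prod, Finset.mul_sum]
    refine Finset.sum_congr rfl (fun y2 _ => ?_)
    rw [← slice_sum h4 x hx, Finset.mul_sum]
    refine Finset.sum_congr rfl (fun z _ => ?_)
    rw [← ind_formula h4 hA, ← ind_formula h4 hB]
    ring
  have h1 := key 1 hne
  have h2 := key (-1) (neg_ne_zero.mpr hne)
  rw [neg_neg, J_neg, chi_neg_one h4, map_one] at h2
  rw [chi_neg_one h4, map_one] at h1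
  have h3 : 4 * ((Cnt A B (1, y) : ℤ) - Cnt A B (-1, y))
      = 2 * ∑ y2 : K, (De A (y + y2) * al B y2 - al A (y + y2) * De B y2) := by
    rw [mul_sub, h1, h2, ← Finset.sum_sub_distrib, Finset.mul_sum]
    refine Finset.sum_congr rfl (fun y2 _ => ?_)
    ring
  linarith

end

end Pool.Agent.MultConj
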