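import Pool.Agent.Lib.MP_5e14a0_co.Inv

set_option autoImplicit false
set_option linter.unusedSectionVars false
set_option linter.style.haveILetI false

namespace Pool.Agent.MultConj

theorem decomp (G : Type) [AddCommGroup G] [Fintype G] [DecidableEq G] (q w : ℕ) [Fact q.Prime]
    (hcard : Fintype.card G = q * w) (hqw : ¬ q ∣ w) :
    ∃ (K : Type) (_ : AddCommGroup K) (_ : Fintype K) (_ : DecidableEq K),
      Fintype.card K = w ∧ Nonempty (G ≃+ ZMod q × K) := by
  classical
  have hq : q.Prime := Fact.out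
  have hcop : Nat.Coprime q w := (Nat.Prime.coprime_iff_not_dvd hq).mpr hqw
  have hG0 : 0 < Fintype.card G := Fintype.card_pos
  have hw0 : 0 < w := by
    rcases Nat.eq_zero_or_pos w with h | h
    · rw [h] at hcard; omega
    · exact h
  obtain ⟨z, hz⟩ := exists_prime_addOrderOf_dvd_card q (⟨w, hcard⟩ : q ∣ Fintype.card G)
  -- the homomorphism from `ZMod q`
  have hqz : (zmultiplesHom G z) (q : ℤ) = 0 := by
    rw [zmultiplesHom_apply, natCast_zsmul, ← hz, addOrderOf_nsmul_eq_zero]
  let i : ZMod q →+ G := ZMod.lift q ⟨zmultiplesHom G z, hqz⟩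
  have hi : ∀ n : ℕ, i (n : ZMod q) = n • z := by
    intro n
    have : i ((n : ℤ) : ZMod q) = (n : ℤ) • z := by
      show ZMod.lift q ⟨zmultiplesHom G z, hqz⟩ ((n : ℤ) : ZMod q) = _
      rw [ZMod.lift_coe]
      rfl
    rw [natCast_zsmul] at this
    rw [← this]
    congr 1
    push_cast
    rfl
  have hinj : ∀ a : ZMod q, i a = 0 → a = 0 := by
    intro a ha
    have h1 : ((a.val : ℕ) : ZMod q) = a := ZMod.natCast_zmod_val a
    rw [← h1, hi] at ha
    have h2 : q ∣ a.val := by
      have h3 := addOrderOf_dvd_of_nsmul_eq_zero ha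
      rwa [hz] at h3
    rw [← h1]
    exact (ZMod.natCast_eq_zero_iff _ _).mpr h2
  let f : G →+ G := nsmulAddMonoidHom w
  let K : AddSubgroup G := f.ker
  have hKmem : ∀ y : G, y ∈ K ↔ w • y = 0 := by
    intro y
    rw [AddMonoidHom.mem_ker]
    rfl
  let F : (ZMod q × K) →+ G := i.coprod K.subtype
  have hF : ∀ a (y : K), F (a, y) = i a + (y : G) := by intro a y; rfl
  have hFinj : Function.Injective F := by
    rw [injective_iff_map_eq_zero]
    rintro ⟨a, y⟩ h
    rw [hF] at h
    have h1 : w • i a = 0 := by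
      have : i a = -(y : G) := eq_neg_of_add_eq_zero_left h
      rw [this, smul_neg, (hKmem y).mp y.2, neg_zero]
    have h2 : q • i a = 0 := by
      rw [← map_nsmul]
      have : q • a = 0 := by rw [nsmul_eq_mul, ZMod.natCast_self, zero_mul]
      rw [this, map_zero]
    have h3 : addOrderOf (i a) ∣ 1 := by
      have := Nat.dvd_gcd (addOrderOf_dvd_of_nsmul_eq_zero h2) (addOrderOf_dvd_of_nsmul_eq_zero h1)
      rwa [hcop] at this
    have h4 : i a = 0 := AddMonoid.addOrderOf_eq_one_iff.mp (Nat.dvd_one.mp h3)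
    have h5 : a = 0 := hinj a h4
    rw [h4, zero_add] at h
    rw [h5]
    have : y = 0 := by
      apply Subtype.ext
      exact h
    rw [this]
    rfl
  -- the range of `w •`
  have hRq : Nat.card f.range ∣ q := by
    have h1 : Nat.card f.range ∣ q * w := by
      rw [← hcard, ← Nat.card_eq_fintype_card]
      exact AddSubgroup.card_addSubgroup_dvd_card _
    have h2 : Nat.Coprime (Nat.card f.range) w := by
      rw [Nat.coprime_iff_gcd_eq_one]
      by_contra hne
      obtain ⟨r, hr, hrd⟩ := Nat.exists_prime_and_dvd hne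
      haveI : Fact r.Prime := ⟨hr⟩
      have hr1 : r ∣ Nat.card f.range := hrd.trans (Nat.gcd_dvd_left _ _)
      have hr2 : r ∣ w := hrd.trans (Nat.gcd_dvd_right _ _)
      haveI : Fintype f.range := Fintype.ofFinite _
      rw [Nat.card_eq_fintype_card] at hr1
      obtain ⟨x, hx⟩ := exists_prime_addOrderOf_dvd_card r hr1
      have h3 : q • x = 0 := by
        apply Subtype.ext
        obtain ⟨y, hy⟩ := x.2
        rw [AddSubgroup.coe_nsmul, ← hy]
        show q • (w • y) = _
        rw [← mul_smul, ← hcard]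
        exact card_nsmul_eq_zero
      have h4 : r ∣ q := by rw [← hx]; exact addOrderOf_dvd_of_nsmul_eq_zero h3
      have h5 : r = q := (Nat.prime_dvd_prime_iff_eq hr hq).mp h4
      exact hqw (h5 ▸ hr2)
    exact h2.dvd_of_dvd_mul_right h1
  have hprod : Nat.card K * Nat.card f.range = q * w := by
    have h1 : K.index = Nat.card f.range := AddSubgroup.index_ker f
    rw [← h1, AddSubgroup.card_mul_index, Nat.card_eq_fintype_card, hcard]
  have hle1 : w ≤ Nat.card K := by
    have h1 : Nat.card f.range ≤ q := Nat.le_of_dvd hq.pos hRq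
    by_contra hc
    push Not at hc
    have h2 : Nat.card K * Nat.card f.range < w * q := by
      calc Nat.card K * Nat.card f.range ≤ Nat.card K * q := Nat.mul_le_mul_left _ h1
        _ < w * q := Nat.mul_lt_mul_of_pos_right hc hq.pos
    rw [hprod, mul_comm] at h2
    exact lt_irrefl _ h2
  haveI : Fintype K := Fintype.ofFinite _
  have hle2 : q * Fintype.card K ≤ q * w := by
    have := Fintype.card_le_of_injective F hFinj
    rwa [Fintype.card_prod, ZMod.card, hcard] at this
  rw [Nat.card_eq_fintype_card] at hle1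
  have hKw : Fintype.card K = w := le_antisymm (Nat.le_of_mul_le_mul_left hle2 hq.pos) hle1
  have hbij : Function.Bijective F := by
    rw [Fintype.bijective_iff_injective_and_card]
    exact ⟨hFinj, by rw [Fintype.card_prod, ZMod.card, hcard, hKw]⟩
  exact ⟨K, inferInstance, inferInstance, inferInstance, hKw,
    ⟨(AddEquiv.ofBijective F hbij).symm⟩⟩

section
variable {G H : Type} [AddCommGroup G] [Fintype G] [DecidableEq G]
  [AddCommGroup H] [Fintype H] [DecidableEq H]

theorem Cnt_equiv (e : G ≃+ H) (A B : Finset G) (g : G) :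
    Cnt (A.image e) (B.image e) (e g) = Cnt A B g := by
  have h : (Cnt (A.image e) (B.image e) (e g) : ℤ) = (Cnt A B g : ℤ) := by
    rw [Cnt_eq_sum, Cnt_eq_sum, Finset.sum_image (fun x _ y _ h => e.injective h)]
    refine Finset.sum_congr rfl (fun a _ => ?_)
    rw [Finset.sum_image (fun x _ y _ h => e.injective h)]
    refine Finset.sum_congr rfl (fun b _ => ?_)
    congr 1
    apply propext
    rw [← map_sub]
    exact e.injective.eq_iff
  exact_mod_cast h

theorem ds_equiv (e : G ≃+ H) {D : Finset G} {lam : ℕ} (hD : IsDS D lam) :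
    IsDS (D.image e) lam := by
  intro h hh
  obtain ⟨g, rfl⟩ := e.surjective h
  rw [Cnt_equiv]
  apply hD
  rintro rfl
  exact hh (map_zero e)

theorem back_equiv (e : G ≃+ H) {D : Finset G} {p : ℕ}
    (h : ∃ g, (D.image e).image (fun z => p • z) = tr (D.image e) g) :
    ∃ g, D.image (fun z => p • z) = tr D g := by
  obtain ⟨g, hg⟩ := h
  refine ⟨e.symm g, ?_⟩
  have h1 := congrArg (fun E => E.image e.symm) hg
  unfold tr at h1 ⊢
  rw [Finset.image_image, Finset.image_image, Finset.image_image, Finset.image_image] at h1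
  have e1 : (⇑e.symm ∘ (fun z => p • z) ∘ ⇑e) = fun z : G => p • z := by
    funext x
    simp only [Function.comp, map_nsmul, AddEquiv.symm_apply_apply]
  have e2 : (⇑e.symm ∘ (fun x => x + g) ∘ ⇑e) = fun x : G => x + e.symm g := by
    funext x
    simp only [Function.comp, map_add, AddEquiv.symm_apply_apply]
  rw [← Function.comp_assoc] at e1 e2
  rw [← e1, ← e2]
  simpa [Function.comp_assoc] using h1

theorem Cnt_compl (D : Finset G) (g : G) :
    (Cnt Dᶜ Dᶜ g : ℤ) = Fintype.card G - 2 * D.card + Cnt D D g := by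
  rw [Cnt_eq_conv, Cnt_eq_conv]
  have h1 : ∀ z : G, (if g + z ∈ Dᶜ then (1 : ℤ) else 0) * (if z ∈ Dᶜ then 1 else 0)
      = 1 - (if g + z ∈ D then (1 : ℤ) else 0) - (if z ∈ D then (1 : ℤ) else 0)
        + (if g + z ∈ D then (1 : ℤ) else 0) * (if z ∈ D then 1 else 0) := by
    intro z
    simp only [Finset.mem_compl]
    by_cases h1 : g + z ∈ D <;> by_cases h2 : z ∈ D <;> simp [h1, h2]
  rw [Finset.sum_congr rfl (fun z _ => h1 z), Finset.sum_add_distrib, Finset.sum_sub_distrib,
    Finset.sum_sub_distrib, Finset.sum_const, Finset.card_univ, nsmul_eq_mul]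
  have h2 : ∑ z : G, (if z ∈ D then (1 : ℤ) else 0) = D.card := by
    rw [Finset.sum_ite_mem, Finset.univ_inter, Finset.sum_const, nsmul_eq_mul, mul_one]
  have h3 : ∑ z : G, (if g + z ∈ D then (1 : ℤ) else 0) = D.card := by
    rw [← h2]
    exact Fintype.sum_equiv (Equiv.addLeft g) _ _ (fun _ => rfl)
  rw [h2, h3]
  ring

theorem ds_compl {D : Finset G} {lam : ℕ} (hD : IsDS D lam) (h : 2 * D.card ≤ Fintype.card G + lam) :
    IsDS Dᶜ (Fintype.card G + lam - 2 * D.card) := by
  intro g hg
  have h1 := Cnt_compl D g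
  rw [hD g hg] at h1
  have h2 : (Cnt Dᶜ Dᶜ g : ℤ) = ((Fintype.card G + lam - 2 * D.card : ℕ) : ℤ) := by
    push_cast [Nat.cast_sub h]
    rw [h1]; ring
  exact_mod_cast h2

theorem back_compl {D : Finset G} {p : ℕ} (hp : Nat.Coprime p (Fintype.card G))
    (h : ∃ g, Dᶜ.image (fun z => p • z) = tr Dᶜ g) : ∃ g, D.image (fun z => p • z) = tr D g := by
  obtain ⟨g, hg⟩ := h
  refine ⟨g, ?_⟩
  have hinj : Function.Injective (fun z : G => p • z) := smul_inj hp
  have hbij : Function.Bijective (fun z : G => p • z) := Finite.injective_iff_bijective.mp hinj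
  have e1 : Dᶜ.image (fun z => p • z) = (D.image (fun z => p • z))ᶜ := by
    ext x
    obtain ⟨y, rfl⟩ := hbij.2 x
    simp only [Finset.mem_image, Finset.mem_compl]
    constructor
    · rintro ⟨z, hz, hzz⟩ ⟨z', hz', hzz'⟩
      have : z = z' := hinj (hzz.trans hzz'.symm)
      exact hz (this ▸ hz')
    · intro hx
      exact ⟨y, fun hy => hx ⟨y, hy, rfl⟩, rfl⟩
  have e2 : tr Dᶜ g = (tr D g)ᶜ := by
    ext x
    rw [mem_tr, Finset.mem_compl, Finset.mem_compl, mem_tr]
  rw [e1, e2] at hg
  exact compl_injective hg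

end

end Pool.Agent.MultConj
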