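import Pool.Agent.Lib.MP_5e14a0_co.Inv

set_option autoImplicit false
set_option linter.unusedSectionVars false
set_option linter.style.haveILetI false

namespace Pool.Agent.MultConj

section
variable {q : ℕ} [Fact q.Prime] {K : Type} [AddCommGroup K] [Fintype K] [DecidableEq K]

theorem sum_sq_conv (f : K → ℤ) : ∑ g : K, ∑ y : K, f (g + y) * f y = (∑ y, f y) ^ 2 := by
  rw [Finset.sum_comm, pow_two, Finset.mul_sum]
  refine Finset.sum_congr rfl (fun y _ => ?_)
  rw [← Finset.sum_mul]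
  congr 1
  exact Fintype.sum_equiv (Equiv.addRight y) _ _ (fun _ => rfl)

/-- for all `w` up to about `q ^ 2 / 5` outside a thin explicit set, the order of `K` is small -/
theorem ext_bound (h4 : q % 4 = 3) (h7 : 7 ≤ q) {D : Finset (ZMod q × K)} (hD : QInv D) {lam : ℕ}
    (hds : IsDS D lam) (hk : 2 * D.card + 1 = q * Fintype.card K)
    (hw : 5 * (Fintype.card K - 1) ≤ (q - 2) * (q - 3))
    (hno : ∀ u a b : ℕ, 3 ≤ u → (a + b + 1 = u ∨ a + b = u + 1) →
      Fintype.card K + 4 * (a * b) ≠ u ^ 2 * (q + 1) + 1) :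
    Fintype.card K + 5 < 2 * q := by
  classical
  set w := Fintype.card K with hwdef
  have hw0 : 0 < w := Fintype.card_pos
  have hk0 : 0 < D.card := by
    rcases Nat.eq_zero_or_pos D.card with h | h
    · rw [h] at hk
      have : q ∣ 1 := ⟨w, by omega⟩
      have := Nat.le_of_dvd one_pos this
      omega
    · exact h
  have hlam := lam_eq hds hk hk0
  have hqZ : (7 : ℤ) ≤ q := by exact_mod_cast h7
  have hkZ : 2 * (D.card : ℤ) + 1 = q * w := by exact_mod_cast hk
  have hlZ : (D.card : ℤ) = 2 * lam + 1 := by exact_mod_cast hlam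
  have hw0Z : (1 : ℤ) ≤ w := by exact_mod_cast hw0
  have hwZ : 5 * ((w : ℤ) - 1) ≤ ((q : ℤ) - 2) * (q - 3) := by
    have h2 : 2 ≤ q := by omega
    have h3 : 3 ≤ q := by omega
    have := (Nat.cast_le (α := ℤ)).mpr hw
    push_cast [Nat.cast_sub hw0, Nat.cast_sub h2, Nat.cast_sub h3] at this
    exact this
  have ha := fun y => ind_01 D 0 y
  have he := fun y => ee_cases D y
  have hg := fun y => two_g0 h4 hD y
  have hsum1 : ∑ y : K, 2 * g0 D y = q * w - 1 := by
    rw [← Finset.mul_sum, ← card_eq_sum]; linarith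
  have hsum2 : ∑ y : K, g0 D y * g0 D y = D.card + (q - 1) * lam := conv_g0_zero hds
  have hid : ∑ y : K, ((2 * g0 D y - (q : ℤ)) ^ 2 - 1) = ((q : ℤ) - 1) * ((w : ℤ) - 1) := by
    have h1 : ∀ y : K, (2 * g0 D y - q) ^ 2 - 1
        = 4 * (g0 D y * g0 D y) - 2 * q * (2 * g0 D y) + (q ^ 2 - 1) := by intro y; ring
    rw [Finset.sum_congr rfl (fun y _ => h1 y), Finset.sum_add_distrib, Finset.sum_sub_distrib,
      ← Finset.mul_sum, ← Finset.mul_sum, hsum2, hsum1, Finset.sum_const, Finset.card_univ,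
      nsmul_eq_mul, ← hwdef]
    have h2 : (lam : ℤ) * 4 = q * w - 3 := by linarith
    have h3 : (D.card : ℤ) * 2 = q * w - 1 := by linarith
    linear_combination 2 * h3 + (q - 1) * h2
  -- the two parts of `2 g0 - q`
  let sg : K → ℤ := fun y => ee D y - 1
  let ap : K → ℤ := fun y => 2 * ind D 0 y - ee D y
  have hh : ∀ y, 2 * g0 D y - q = ap y + q * sg y := by
    intro y
    show 2 * g0 D y - q = (2 * ind D 0 y - ee D y) + q * (ee D y - 1)
    rw [hg]; ring
  let R : K → ℤ := fun y => if ee D y = 1 then 0 else 1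
  let T : K → ℤ := fun y => if ee D y = 1 then 0 else if ap y = 0 then 0 else 1
  have hcase : ∀ y, (sg y = 0 ∧ (ap y = 1 ∨ ap y = -1) ∧ R y = 0 ∧ T y = 0) ∨
      (sg y = -1 ∧ ap y = 0 ∧ R y = 1 ∧ T y = 0) ∨ (sg y = -1 ∧ ap y = 2 ∧ R y = 1 ∧ T y = 1) ∨
      (sg y = 1 ∧ ap y = 0 ∧ R y = 1 ∧ T y = 0) ∨ (sg y = 1 ∧ ap y = -2 ∧ R y = 1 ∧ T y = 1) := by
    intro y
    simp only [sg, ap, R, T]
    rcases he y with h | h | h <;> rcases ha y with h' | h' <;> simp [h, h']
  have hR0 : ∀ y, 0 ≤ R y := by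
    intro y
    rcases hcase y with ⟨_, _, h, _⟩ | ⟨_, _, h, _⟩ | ⟨_, _, h, _⟩ | ⟨_, _, h, _⟩ | ⟨_, _, h, _⟩ <;>
      rw [h] <;> norm_num
  have hT0 : ∀ y, 0 ≤ T y := by
    intro y
    rcases hcase y with ⟨_, _, _, h⟩ | ⟨_, _, _, h⟩ | ⟨_, _, _, h⟩ | ⟨_, _, _, h⟩ | ⟨_, _, _, h⟩ <;>
      rw [h] <;> norm_num
  have hTR : ∀ y, T y ≤ R y := by
    intro y
    rcases hcase y with ⟨_, _, h, h'⟩ | ⟨_, _, h, h'⟩ | ⟨_, _, h, h'⟩ | ⟨_, _, h, h'⟩ | ⟨_, _, h, h'⟩ <;>
      rw [h, h'] <;> norm_num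
  have hsq : ∀ y, (2 * g0 D y - (q : ℤ)) ^ 2 - 1 = ((q : ℤ) ^ 2 - 1) * R y - 4 * (q - 1) * T y := by
    intro y
    rw [hh]
    rcases hcase y with ⟨h1, h2 | h2, h3, h4⟩ | ⟨h1, h2, h3, h4⟩ | ⟨h1, h2, h3, h4⟩ |
      ⟨h1, h2, h3, h4⟩ | ⟨h1, h2, h3, h4⟩ <;> rw [h1, h2, h3, h4] <;> ring
  have hap2 : ∀ y, ap y ^ 2 = 1 - R y + 4 * T y := by
    intro y
    rcases hcase y with ⟨h1, h2 | h2, h3, h4⟩ | ⟨h1, h2, h3, h4⟩ | ⟨h1, h2, h3, h4⟩ |
      ⟨h1, h2, h3, h4⟩ | ⟨h1, h2, h3, h4⟩ <;> rw [h2, h3, h4] <;> ring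
  have hsg2 : ∀ y, sg y * sg y = R y := by
    intro y
    rcases hcase y with ⟨h1, h2 | h2, h3, h4⟩ | ⟨h1, h2, h3, h4⟩ | ⟨h1, h2, h3, h4⟩ |
      ⟨h1, h2, h3, h4⟩ | ⟨h1, h2, h3, h4⟩ <;> rw [h1, h3] <;> ring
  set r := ∑ y, R y with hr
  set t := ∑ y, T y with ht
  have hr0 : 0 ≤ r := Finset.sum_nonneg (fun y _ => hR0 y)
  have ht0 : 0 ≤ t := Finset.sum_nonneg (fun y _ => hT0 y)
  have htr : t ≤ r := Finset.sum_le_sum (fun y _ => hTR y)
  have hwr : (w : ℤ) - 1 = r * (q + 1) - 4 * t := by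
    have h1 : ((q : ℤ) ^ 2 - 1) * r - 4 * (q - 1) * t = (q - 1) * (w - 1) := by
      rw [← hid, Finset.sum_congr rfl (fun y _ => hsq y), Finset.sum_sub_distrib, ← Finset.mul_sum,
        ← Finset.mul_sum]
    have hq1 : (q - 1 : ℤ) ≠ 0 := by linarith
    have h2 : ((q : ℤ) - 1) * (w - 1) = (q - 1) * (r * (q + 1) - 4 * t) := by
      rw [← h1]; ring
    exact mul_left_cancel₀ hq1 h2
  have hr5 : 5 * r ≤ q - 2 := by
    have h1 : r * ((q : ℤ) - 3) ≤ w - 1 := by
      have e1 : r * ((q : ℤ) - 3) = r * (q + 1) - 4 * r := by ring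
      linarith
    have h2 : 5 * r * ((q : ℤ) - 3) ≤ (q - 2) * (q - 3) := by
      have e1 : 5 * r * ((q : ℤ) - 3) = 5 * (r * (q - 3)) := by ring
      linarith
    have h3 : (0 : ℤ) < q - 3 := by linarith
    exact le_of_mul_le_mul_right h2 h3
  have hap2s : ∑ y, ap y ^ 2 = q * r + 1 := by
    rw [Finset.sum_congr rfl (fun y _ => hap2 y), Finset.sum_add_distrib, Finset.sum_sub_distrib,
      ← Finset.mul_sum, Finset.sum_const, Finset.card_univ, nsmul_eq_mul, ← hwdef]
    linarith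
  have hshift : ∀ (g : K) (f : K → ℤ), ∑ y, f (g + y) = ∑ y, f y := fun g f =>
    Fintype.sum_equiv (Equiv.addLeft g) _ _ (fun _ => rfl)
  -- autocorrelation
  have hauto : ∀ g : K, g ≠ 0 → ∑ y : K, (2 * g0 D (g + y) - (q : ℤ)) * (2 * g0 D y - q) = -q := by
    intro g hg0
    have h1 := conv_g0_ne hds hg0
    have h2 : ∑ y : K, 2 * g0 D (g + y) = q * w - 1 := by
      rw [hshift g (fun y => 2 * g0 D y), hsum1]
    have h3 : ∀ y : K, (2 * g0 D (g + y) - (q : ℤ)) * (2 * g0 D y - q)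
        = 4 * (g0 D (g + y) * g0 D y) - q * (2 * g0 D (g + y)) - q * (2 * g0 D y) + q ^ 2 := by
      intro y; ring
    have e1 : ∑ y : K, (q : ℤ) * (2 * g0 D (g + y)) = q * (q * w - 1) := by
      rw [← Finset.mul_sum, h2]
    have e2 : ∑ y : K, (q : ℤ) * (2 * g0 D y) = q * (q * w - 1) := by
      rw [← Finset.mul_sum, hsum1]
    have e3 : ∑ y : K, 4 * (g0 D (g + y) * g0 D y) = 4 * (q * lam) := by
      rw [← Finset.mul_sum, h1]
    have e4 : ∑ _y : K, (q : ℤ) ^ 2 = (w : ℤ) * (q : ℤ) ^ 2 := by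
      rw [Finset.sum_const, Finset.card_univ, nsmul_eq_mul, ← hwdef]
    rw [Finset.sum_congr rfl (fun y _ => h3 y), Finset.sum_add_distrib, Finset.sum_sub_distrib,
      Finset.sum_sub_distrib, e1, e2, e3, e4]
    have h4 : (lam : ℤ) * 4 = q * w - 3 := by linarith
    linear_combination q * h4
  have hS : ∀ g : K, g ≠ 0 → ∑ y, sg (g + y) * sg y = 0 := by
    intro g hg0
    have h1 := hauto g hg0
    have h2 : ∀ y : K, (2 * g0 D (g + y) - (q : ℤ)) * (2 * g0 D y - q)
        = ap (g + y) * ap y + q * (ap (g + y) * sg y + sg (g + y) * ap y)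
          + q ^ 2 * (sg (g + y) * sg y) := by
      intro y
      rw [hh, hh]; ring
    rw [Finset.sum_congr rfl (fun y _ => h2 y), Finset.sum_add_distrib, Finset.sum_add_distrib,
      ← Finset.mul_sum, ← Finset.mul_sum] at h1
    set S := ∑ y, sg (g + y) * sg y with hSdef
    set X := ∑ y, ap (g + y) * ap y with hX
    set Y := ∑ y, (ap (g + y) * sg y + sg (g + y) * ap y) with hY
    have hX1 : X ≤ q * r + 1 := by
      have e1 : ∑ y, ap (g + y) ^ 2 = q * r + 1 := by
        rw [hshift g (fun y => ap y ^ 2), hap2s]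
      have e2 : 2 * X ≤ ∑ y, ap (g + y) ^ 2 + ∑ y, ap y ^ 2 := by
        rw [hX, Finset.mul_sum, ← Finset.sum_add_distrib]
        exact Finset.sum_le_sum (fun y _ => by
          have e3 := two_mul_le_add_sq (ap (g + y)) (ap y)
          rw [mul_assoc] at e3
          exact e3)
      rw [e1, hap2s] at e2
      linarith
    have hX2 : -(q * r + 1) ≤ X := by
      have e1 : ∑ y, ap (g + y) ^ 2 = q * r + 1 := by
        rw [hshift g (fun y => ap y ^ 2), hap2s]
      have e2 : -(∑ y, ap (g + y) ^ 2 + ∑ y, ap y ^ 2) ≤ 2 * X := by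
        rw [hX, Finset.mul_sum, ← Finset.sum_add_distrib, ← Finset.sum_neg_distrib]
        exact Finset.sum_le_sum (fun y _ => by
          have e3 := sq_nonneg (ap (g + y) + ap y)
          have e4 : (ap (g + y) + ap y) ^ 2
            = ap (g + y) ^ 2 + ap y ^ 2 + 2 * (ap (g + y) * ap y) := by ring
          linarith)
      rw [e1, hap2s] at e2
      linarith
    have hb : ∀ y z : K, ap y * sg z ≤ 2 * R z ∧ -(2 * R z) ≤ ap y * sg z := by
      intro y z
      have e1 : -2 ≤ ap y ∧ ap y ≤ 2 := by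
        rcases hcase y with ⟨_, h2 | h2, _⟩ | ⟨_, h2, _⟩ | ⟨_, h2, _⟩ | ⟨_, h2, _⟩ | ⟨_, h2, _⟩ <;>
          rw [h2] <;> norm_num
      rcases hcase z with ⟨h1, _, h3, _⟩ | ⟨h1, _, h3, _⟩ | ⟨h1, _, h3, _⟩ | ⟨h1, _, h3, _⟩ |
        ⟨h1, _, h3, _⟩ <;> rw [h1, h3] <;> constructor <;> linarith [e1.1, e1.2]
    have hRg : ∑ y, R (g + y) = r := hshift g R
    have hY1 : Y ≤ 4 * r := by
      have e1 : Y ≤ ∑ y, (2 * R y + 2 * R (g + y)) := by
        apply Finset.sum_le_sum
        intro y _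
        have := (hb (g + y) y).1
        have := (hb y (g + y)).1
        linarith
      rw [Finset.sum_add_distrib, ← Finset.mul_sum, ← Finset.mul_sum, hRg] at e1
      linarith
    have hY2 : -(4 * r) ≤ Y := by
      have e1 : ∑ y, -(2 * R y + 2 * R (g + y)) ≤ Y := by
        apply Finset.sum_le_sum
        intro y _
        have := (hb (g + y) y).2
        have := (hb y (g + y)).2
        linarith
      rw [Finset.sum_neg_distrib, Finset.sum_add_distrib, ← Finset.mul_sum, ← Finset.mul_sum, hRg] at e1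
      linarith
    by_contra hne
    rcases lt_or_gt_of_ne hne with hlt | hgt
    · have e1 : S ≤ -1 := by omega
      have e2 : (q : ℤ) ^ 2 * S ≤ q ^ 2 * (-1) := mul_le_mul_of_nonneg_left e1 (sq_nonneg _)
      have e3' : (q : ℤ) * Y ≤ q * (4 * r) := mul_le_mul_of_nonneg_left hY1 (by linarith)
      have e4 : (q : ℤ) * (5 * r) ≤ q * (q - 2) := mul_le_mul_of_nonneg_left hr5 (by linarith)
      have e5 : (q : ℤ) * (4 * r) = q * (5 * r) - q * r := by ring
      have e6 : (q : ℤ) ^ 2 = q * (q - 2) + 2 * q := by ring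
      linarith
    · have e1 : 1 ≤ S := by omega
      have e2 : (q : ℤ) ^ 2 * 1 ≤ q ^ 2 * S := mul_le_mul_of_nonneg_left e1 (sq_nonneg _)
      have e3 : (q : ℤ) * -(4 * r) ≤ q * Y := mul_le_mul_of_nonneg_left hY2 (by linarith)
      have e4 : (q : ℤ) * (5 * r) ≤ q * (q - 2) := mul_le_mul_of_nonneg_left hr5 (by linarith)
      have e5 : (q : ℤ) * -(4 * r) = -(q * (5 * r)) + q * r := by ring
      have e6 : (q : ℤ) ^ 2 = q * (q - 2) + 2 * q := by ring
      linarith
  have hrsq : (∑ y, sg y) ^ 2 = r := by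
    rw [← sum_sq_conv, ← Finset.add_sum_erase _ _ (Finset.mem_univ (0 : K)),
      Finset.sum_eq_zero (fun g hg => hS g (Finset.ne_of_mem_erase hg)), add_zero]
    rw [hr]
    refine Finset.sum_congr rfl (fun y _ => ?_)
    rw [zero_add, hsg2]
  -- the projection to the other factor
  set U := ∑ y, sg y with hU
  have hE : ∑ y, ee D y = w + U := by
    have e1 : ∑ y, ee D y = ∑ y : K, (1 + sg y) :=
      Finset.sum_congr rfl (fun y _ => by show ee D y = 1 + (ee D y - 1); ring)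
    rw [e1, Finset.sum_add_distrib, Finset.sum_const, Finset.card_univ, nsmul_eq_mul, ← hwdef, ← hU]
    ring
  have hA : 2 * ∑ y, ind D 0 y = w - 1 - (q - 1) * U := by
    have e1 : ∑ y : K, 2 * g0 D y = 2 * ∑ y, ind D 0 y + (q - 1) * ∑ y, ee D y := by
      rw [Finset.sum_congr rfl (fun y _ => hg y), Finset.sum_add_distrib, ← Finset.mul_sum,
        ← Finset.mul_sum]
    rw [hsum1, hE] at e1
    linarith
  have hX : (w : ℤ) = 2 * U + q * U ^ 2 + (∑ y, De D y) ^ 2 := by
    have e1 := four_s0 h4 hD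
    rw [conv_s0_zero hds, hE] at e1
    set A := ∑ y, ind D 0 y with hAdef
    set X := ∑ y, De D y with hXdef
    have e2 : 4 * A ^ 2 = (w - 1 - (q - 1) * U) ^ 2 := by rw [← hA]; ring
    have h2 : (lam : ℤ) * 4 = q * w - 3 := by linarith
    have h3 : (D.card : ℤ) * 2 = q * w - 1 := by linarith
    have hq1 : (q - 1 : ℤ) ≠ 0 := by linarith
    apply mul_left_cancel₀ hq1
    linear_combination e1 + e2 - 2 * h3 - (w - 1) * h2
  -- the weight `4` is impossible
  have hne4 : U ^ 2 ≠ 4 := by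
    intro hU4
    have hr4 : r = 4 := by rw [← hrsq, hU4]
    have hq22 : (22 : ℤ) ≤ q := by rw [hr4] at hr5; linarith
    have hwq : (w : ℤ) = 4 * q + 5 - 4 * t := by
      rw [hr4] at hwr; linarith
    have haps : ∑ y, ap y = -1 - q * U := by
      have e1 : ∑ y, ap y = 2 * ∑ y, ind D 0 y - ∑ y, ee D y := by
        rw [Finset.mul_sum, ← Finset.sum_sub_distrib]
      rw [e1, hA, hE]; ring
    obtain ⟨ep, hep, hepU⟩ : ∃ ep : ℤ, (ep = 1 ∨ ep = -1) ∧ U = 2 * ep := by
      have e1 : (U - 2) * (U + 2) = 0 := by ring_nf; ring_nf at hU4; linarith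
      rcases mul_eq_zero.mp e1 with h | h
      · exact ⟨1, Or.inl rfl, by linarith⟩
      · exact ⟨-1, Or.inr rfl, by linarith⟩
    have hep2 : ep * ep = 1 := by rcases hep with h | h <;> rw [h] <;> norm_num
    have hlow : ∀ g : K, g ≠ 0 → (q : ℤ) ≤ ∑ y, ap (g + y) * ap y := by
      intro g hg0
      have h1 := hauto g hg0
      have h2 : ∀ y : K, (2 * g0 D (g + y) - (q : ℤ)) * (2 * g0 D y - q)
          = ap (g + y) * ap y + q * (ap (g + y) * sg y + sg (g + y) * ap y)
            + q ^ 2 * (sg (g + y) * sg y) := by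
        intro y
        rw [hh, hh]; ring
      rw [Finset.sum_congr rfl (fun y _ => h2 y), Finset.sum_add_distrib, Finset.sum_add_distrib,
        ← Finset.mul_sum, ← Finset.mul_sum, hS g hg0, mul_zero, add_zero] at h1
      have hRg : ∑ y, R (g + y) = r := hshift g R
      have hTg : ∑ y, T (g + y) = t := hshift g T
      -- parity
      have hpar : ∃ k : ℤ, ∑ y, (ap (g + y) * sg y + sg (g + y) * ap y) = 2 * k := by
        have e1 : ∀ y z : K, ∃ k : ℤ, ap z * sg y + sg z * ap y = R y + R z + 2 * k := by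
          intro y z
          rcases hcase y with ⟨a1, a2 | a2, a3, _⟩ | ⟨a1, a2, a3, _⟩ | ⟨a1, a2, a3, _⟩ |
            ⟨a1, a2, a3, _⟩ | ⟨a1, a2, a3, _⟩ <;>
          rcases hcase z with ⟨b1, b2 | b2, b3, _⟩ | ⟨b1, b2, b3, _⟩ | ⟨b1, b2, b3, _⟩ |
            ⟨b1, b2, b3, _⟩ | ⟨b1, b2, b3, _⟩ <;> rw [a1, a2, a3, b1, b2, b3] <;>
          first
            | (refine ⟨0, ?_⟩; norm_num; done)
            | (refine ⟨-1, ?_⟩; norm_num; done)
            | (refine ⟨1, ?_⟩; norm_num; done)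
            | (refine ⟨-2, ?_⟩; norm_num; done)
            | (refine ⟨-3, ?_⟩; norm_num; done)
        choose f hf using e1
        refine ⟨r + ∑ y, f y (g + y), ?_⟩
        rw [Finset.sum_congr rfl (fun y _ => hf y (g + y)), Finset.sum_add_distrib,
          Finset.sum_add_distrib, ← Finset.mul_sum, hRg]
        ring
      obtain ⟨k, hk2⟩ := hpar
      rw [hk2] at h1
      -- lower bound
      have hphi : -(6 * t) ≤ ∑ y, (1 + ep * ap (g + y)) * (1 + ep * ap y) := by
        have e1 : ∀ y z : K, -(3 * T y + 3 * T z) ≤ (1 + ep * ap z) * (1 + ep * ap y) := by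
          intro y z
          rcases hep with h | h <;> rw [h] <;>
          rcases hcase y with ⟨_, a2 | a2, _, a4⟩ | ⟨_, a2, _, a4⟩ | ⟨_, a2, _, a4⟩ |
            ⟨_, a2, _, a4⟩ | ⟨_, a2, _, a4⟩ <;>
          rcases hcase z with ⟨_, b2 | b2, _, b4⟩ | ⟨_, b2, _, b4⟩ | ⟨_, b2, _, b4⟩ |
            ⟨_, b2, _, b4⟩ | ⟨_, b2, _, b4⟩ <;> rw [a2, a4, b2, b4] <;> norm_num
        have e2 : ∑ y, -(3 * T y + 3 * T (g + y)) ≤
            ∑ y, (1 + ep * ap (g + y)) * (1 + ep * ap y) :=
          Finset.sum_le_sum (fun y _ => e1 y (g + y))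
        rw [Finset.sum_neg_distrib, Finset.sum_add_distrib, ← Finset.mul_sum, ← Finset.mul_sum,
          hTg] at e2
        linarith
      have hexp : ∑ y, (1 + ep * ap (g + y)) * (1 + ep * ap y) =
          w + 2 * ep * (-1 - q * U) + ∑ y, ap (g + y) * ap y := by
        have e1 : ∀ y : K, (1 + ep * ap (g + y)) * (1 + ep * ap y) =
            1 + ep * ap (g + y) + ep * ap y + (ep * ep) * (ap (g + y) * ap y) := by
          intro y; ring
        rw [Finset.sum_congr rfl (fun y _ => e1 y), Finset.sum_add_distrib, Finset.sum_add_distrib,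
          Finset.sum_add_distrib, ← Finset.mul_sum, ← Finset.mul_sum, ← Finset.mul_sum,
          hshift g ap, haps, Finset.sum_const, Finset.card_univ, nsmul_eq_mul, ← hwdef, hep2]
        ring
      set X := ∑ y, ap (g + y) * ap y with hXdef
      have e3 : 2 * ep * (-1 - (q : ℤ) * U) = -2 * ep - 4 * q := by
        rw [hepU]
        linear_combination (-4 * (q : ℤ)) * hep2
      have hep1 : -1 ≤ ep ∧ ep ≤ 1 := by rcases hep with h | h <;> rw [h] <;> norm_num
      have hX1 : -(q : ℤ) < X := by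
        rw [hexp, e3, hwq] at hphi
        have ht4 : t ≤ 4 := by rw [← hr4]; exact htr
        linarith [hep1.1, hep1.2]
      -- X = - q (1 + 2 k)
      have hX2 : X = q * (-(1 + 2 * k)) := by linarith
      have hk0 : (0 : ℤ) < -(1 + 2 * k) + 1 := by
        by_contra hc
        push Not at hc
        have e4 : (q : ℤ) * (-(1 + 2 * k) + 1) ≤ 0 :=
          mul_nonpos_of_nonneg_of_nonpos (by linarith) hc
        have e5 : (q : ℤ) * (-(1 + 2 * k) + 1) = X + q := by rw [hX2]; ring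
        linarith
      have hk1 : (1 : ℤ) ≤ -(1 + 2 * k) := by omega
      rw [hX2]
      have e6 : (q : ℤ) * 1 ≤ q * (-(1 + 2 * k)) := mul_le_mul_of_nonneg_left hk1 (by linarith)
      linarith
    have hsumX : (q : ℤ) * (w - 1) ≤ (∑ y, ap y) ^ 2 - (q * r + 1) := by
      have e1 := sum_sq_conv ap
      rw [← Finset.add_sum_erase _ _ (Finset.mem_univ (0 : K))] at e1
      have e2 : ∑ y, ap (0 + y) * ap y = q * r + 1 := by
        rw [← hap2s]
        refine Finset.sum_congr rfl (fun y _ => ?_)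
        rw [zero_add, pow_two]
      rw [e2] at e1
      have e3 : ((Finset.univ.erase (0 : K)).card : ℤ) * q ≤
          ∑ g ∈ Finset.univ.erase (0 : K), ∑ y, ap (g + y) * ap y := by
        rw [← nsmul_eq_mul]
        exact Finset.card_nsmul_le_sum _ _ _ (fun g hg => hlow g (Finset.ne_of_mem_erase hg))
      rw [Finset.card_erase_of_mem (Finset.mem_univ _), Finset.card_univ, ← hwdef] at e3
      push_cast [Nat.cast_sub hw0] at e3
      linarith
    rw [haps, hr4, hwq] at hsumX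
    have e7 : (-1 - (q : ℤ) * U) ^ 2 = 1 + 4 * q * ep + 4 * q ^ 2 := by
      rw [hepU]
      linear_combination (4 * (q : ℤ) ^ 2) * hep2
    rw [e7] at hsumX
    have e8 : (q : ℤ) * (8 - 4 * t) ≤ q * (4 * ep) := by linarith
    have e9 : 8 - 4 * t ≤ 4 * ep := le_of_mul_le_mul_left e8 (by linarith)
    have e10 : (∑ y, De D y) ^ 2 = 5 - 4 * ep - 4 * t := by
      have e11 : (q : ℤ) * U ^ 2 = 4 * q := by rw [hU4]; ring
      rw [hwq, e11, hepU] at hX
      linarith
    have e12 := sq_nonneg (∑ y, De D y)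
    rw [e10] at e12
    rcases hep with h | h
    · rw [h] at e9 e12
      omega
    · rw [h] at e9 e12
      omega
  -- conclusion
  set u := U.natAbs with hu
  have hur : ((u : ℤ)) ^ 2 = r := by rw [hu, Int.natAbs_sq, hrsq]
  obtain ⟨tn, htn⟩ := Int.eq_ofNat_of_zero_le ht0
  have hu1 : u ≤ 1 := by
    by_contra hc
    push Not at hc
    set x := (∑ y, De D y).natAbs with hx
    set m := (U - 1).natAbs with hm
    have hmx : m ^ 2 = x ^ 2 + 4 * tn := by
      have e1 : ((m : ℤ)) ^ 2 = (x : ℤ) ^ 2 + 4 * tn := by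
        rw [hm, hx, Int.natAbs_sq, Int.natAbs_sq]
        have e2 : (∑ y, De D y) ^ 2 = w - 2 * U - q * U ^ 2 := by linarith
        rw [e2]
        have e3 : (w : ℤ) = r * (q + 1) - 4 * t + 1 := by linarith
        rw [e3, ← hrsq, htn]
        ring
      exact_mod_cast e1
    have hxm : x ≤ m := by
      by_contra hlt
      push Not at hlt
      have : m ^ 2 < x ^ 2 := Nat.pow_lt_pow_left hlt (by norm_num)
      omega
    obtain ⟨d, hd⟩ := Nat.exists_eq_add_of_le hxm
    have hdd : d * (2 * x + d) = 4 * tn := by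
      rw [hd] at hmx
      have e1 : (x + d) ^ 2 = x ^ 2 + d * (2 * x + d) := by ring
      omega
    have hdeven : Even d := by
      by_contra hodd
      rw [Nat.not_even_iff_odd] at hodd
      have h1 : Odd (d * (2 * x + d)) := hodd.mul (by
        rw [Nat.odd_add]
        exact ⟨fun h => by
          exfalso
          exact (Nat.not_odd_iff_even.mpr (even_two_mul x)) h, fun h => by
          exfalso
          exact (Nat.not_even_iff_odd.mpr hodd) h⟩)
      rw [hdd] at h1
      exact (Nat.not_odd_iff_even.mpr ⟨2 * tn, by ring⟩) h1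
    obtain ⟨a, ha'⟩ := hdeven
    have hab : a * (x + a) = tn := by
      rw [ha'] at hdd
      have e1 : (a + a) * (2 * x + (a + a)) = 4 * (a * (x + a)) := by ring
      omega
    have hc3 : 3 ≤ u := by
      rcases Nat.lt_or_ge 2 u with h | h
      · exact h
      · exfalso
        have h2 : u = 2 := by omega
        rw [h2] at hur
        apply hne4
        rw [hrsq, ← hur]
        norm_num
    apply hno u a (x + a) hc3
    · have e1 : a + (x + a) = m := by omega
      rw [e1]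
      omega
    · rw [hab]
      have : (w : ℤ) + 4 * tn = (u : ℤ) ^ 2 * (q + 1) + 1 := by
        have e1 : (t : ℤ) = tn := htn
        rw [hur, ← e1]; linarith
      exact_mod_cast this
  have hr1 : r ≤ 1 := by
    rw [← hur]
    interval_cases u <;> norm_num
  have hwle : (w : ℤ) ≤ q + 2 := by
    have e1 : r * ((q : ℤ) + 1) ≤ 1 * (q + 1) := mul_le_mul_of_nonneg_right hr1 (by linarith)
    linarith
  by_cases h8 : 8 ≤ q
  · have : (w : ℤ) ≤ ((q + 2 : ℕ) : ℤ) := by push_cast; exact hwle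
    have := Nat.cast_le.mp this
    omega
  · have hq7 : q = 7 := by omega
    have : ((q : ℕ) : ℤ) = 7 := by exact_mod_cast hq7
    rw [this] at hwZ
    have h5 : (w : ℤ) ≤ 5 := by linarith
    have : w ≤ 5 := by exact_mod_cast h5
    omega

/-- the criterion for `ZMod q × K` in the extended range -/
theorem main_crit2 (h4 : q % 4 = 3) (h7 : 7 ≤ q) {D : Finset (ZMod q × K)} {lam : ℕ}
    (hds : IsDS D lam)
    (hw : Fintype.card K + 5 < 2 * q ∨ (¬ q ∣ Fintype.card K ∧
      5 * (Fintype.card K - 1) ≤ (q - 2) * (q - 3) ∧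
      ∀ u a b : ℕ, 3 ≤ u → (a + b + 1 = u ∨ a + b = u + 1) →
        Fintype.card K + 4 * (a * b) ≠ u ^ 2 * (q + 1) + 1))
    (hk : 2 * D.card + 1 = q * Fintype.card K)
    (hcrit1 : Nat.Coprime ((q - 1) / 2) (Nat.totient (Fintype.card K)))
    (hcrit2 : ∀ l : ℕ, l.Prime → l ∣ D.card - lam → (q - 1) / 2 ∣ orderOf (l : ZMod q)) :
    (Fintype.card K = 1 ∨ Fintype.card K + 2 = q ∨ Fintype.card K = q + 2) ∧
    ∀ p : ℕ, p.Prime → p ∣ D.card - lam →
      ∃ g, D.image (fun z => p • z) = tr D g := by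
  have hq : q.Prime := Fact.out
  have hw0 : 0 < Fintype.card K := Fintype.card_pos
  rcases hw with hw | ⟨hqK, hw5, hno⟩
  · exact main_crit h4 h7 hds hw hk hcrit1 hcrit2
  refine main_crit h4 h7 hds ?_ hk hcrit1 hcrit2
  have hk0 : 0 < D.card := by
    rcases Nat.eq_zero_or_pos D.card with h | h
    · rw [h] at hk
      have : q ∣ 1 := ⟨Fintype.card K, by omega⟩
      have := Nat.le_of_dvd one_pos this
      omega
    · exact h
  have hlam := lam_eq hds hk hk0
  have hcardG : Fintype.card (ZMod q × K) = 2 * D.card + 1 := by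
    rw [Fintype.card_prod, ZMod.card, hk]
  have hqw : Nat.Coprime q (Fintype.card K) := (Nat.Prime.coprime_iff_not_dvd hq).mpr hqK
  have hcopD : Nat.Coprime D.card (Fintype.card (ZMod q × K)) := by
    rw [hcardG]
    have : Nat.gcd D.card (2 * D.card + 1) = 1 := by
      rw [add_comm, mul_comm, Nat.gcd_add_mul_left_right]
      exact Nat.gcd_one_right _
    exact this
  have hcopn : Nat.Coprime (D.card - lam) (Fintype.card (ZMod q × K)) := by
    rw [hcardG]
    have e1 : D.card - lam = lam + 1 := by omega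
    have e2 : 2 * D.card + 1 = (lam + 1) * 4 - 1 := by omega
    rw [e1, e2]
    have : Nat.gcd (lam + 1) ((lam + 1) * 4 - 1) = 1 := by
      have h1 : Nat.gcd (lam + 1) ((lam + 1) * 4 - 1) ∣ 1 := by
        have h2 := Nat.gcd_dvd_left (lam + 1) ((lam + 1) * 4 - 1)
        have h3 := Nat.gcd_dvd_right (lam + 1) ((lam + 1) * 4 - 1)
        have h4' : Nat.gcd (lam + 1) ((lam + 1) * 4 - 1) ∣ ((lam + 1) * 4 - 1) + 1 := by
          have : ((lam + 1) * 4 - 1) + 1 = (lam + 1) * 4 := by omega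
          rw [this]
          exact h2.mul_right _
        exact (Nat.dvd_add_right h3).mp h4'
      exact Nat.dvd_one.mp h1
    exact this
  obtain ⟨c, hc⟩ := exists_zero_sum D hcopD
  have hQ : QInv (tr D c) := by
    apply QInv_of_crit h4 (ds_tr hds c) (by rw [tr_card]; omega) hc hqw (by rw [tr_card]; exact hcopD)
      (by rw [tr_card]; exact hcopn) hcrit1
    intro l hl hln
    rw [tr_card] at hln
    exact hcrit2 l hl hln
  exact ext_bound h4 h7 hQ (ds_tr hds c) (by rw [tr_card]; exact hk) hw5 hno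

end

end Pool.Agent.MultConj
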