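import Pool.Agent.Lib.MP_5e14a0_co.Decomp
import Pool.Agent.Lib.MP_5e14a0_co.Ext

set_option autoImplicit false
set_option linter.unusedSectionVars false
set_option linter.style.haveILetI false

namespace Pool.Agent.MultConj

/-- the admissible ranges of `w` -/
def Rng (q w : ℕ) : Prop := w + 5 < 2 * q ∨ (¬ q ∣ w ∧ 5 * (w - 1) ≤ (q - 2) * (q - 3) ∧
  ∀ u a b : ℕ, 3 ≤ u → (a + b + 1 = u ∨ a + b = u + 1) →
    w + 4 * (a * b) ≠ u ^ 2 * (q + 1) + 1)

section
variable {G : Type} [AddCommGroup G] [Fintype G] [DecidableEq G]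

/-- `v = 4 lam + 3` and `k = 2 lam + 1` -/
theorem had_params {D : Finset G} {lam : ℕ} (hds : IsDS D lam)
    (hk : 2 * D.card + 1 = Fintype.card G) (h3 : 3 ≤ Fintype.card G) :
    D.card = 2 * lam + 1 := by
  have h := ds_count hds
  rw [← hk] at h
  have hpos : 0 < D.card := by omega
  have h1 : D.card * D.card = D.card * (2 * lam + 1) := by nlinarith
  exact Nat.eq_of_mul_eq_mul_left hpos h1

/-- the case `v = 2 k + 1` of the criterion -/
theorem crit_small (q : ℕ) [Fact q.Prime] (h4 : q % 4 = 3) (h7 : 7 ≤ q) (w : ℕ)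
    (hcard : Fintype.card G = q * w) (hw : Rng q w) {D : Finset G} {lam : ℕ}
    (hds : IsDS D lam) (hk : 2 * D.card + 1 = Fintype.card G)
    (hcrit1 : Nat.Coprime ((q - 1) / 2) (Nat.totient w))
    (hcrit2 : ∀ l : ℕ, l.Prime → l ∣ D.card - lam → (q - 1) / 2 ∣ orderOf (l : ZMod q)) :
    (w = 1 ∨ w + 2 = q ∨ w = q + 2) ∧
    ∀ p : ℕ, p.Prime → p ∣ D.card - lam →
      ∃ g, D.image (fun z => p • z) = tr D g := by
  classical
  have hq : q.Prime := Fact.out
  have hG0 : 0 < Fintype.card G := Fintype.card_pos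
  have hw0 : 0 < w := by
    rcases Nat.eq_zero_or_pos w with h | h
    · rw [h] at hcard; omega
    · exact h
  have hqle : q ≤ Fintype.card G := by rw [hcard]; exact Nat.le_mul_of_pos_right q hw0
  have hpar := had_params hds hk (by omega)
  have hqw : ¬ q ∣ w := by
    rcases hw with hw | hw
    swap
    · exact hw.1
    rintro ⟨m, hm⟩
    have hm1 : m = 1 := by
      rw [hm] at hw hw0
      have : m < 2 := by
        by_contra hc
        push Not at hc
        have : q * 2 ≤ q * m := Nat.mul_le_mul_left q hc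
        omega
      rcases Nat.eq_zero_or_pos m with h | h
      · rw [h] at hw0; omega
      · omega
    rw [hcard, hm, hm1, mul_one] at hk
    obtain ⟨r, hr⟩ : ∃ r, q = 4 * r + 3 := ⟨q / 4, by omega⟩
    have e1 : q * q = 4 * (4 * r * r + 6 * r + 2) + 1 := by rw [hr]; ring
    omega
  obtain ⟨K, i1, i2, i3, hKw, ⟨e⟩⟩ := decomp G q w hcard hqw
  have hcardD : (D.image e).card = D.card := Finset.card_image_of_injective _ e.injective
  have h := main_crit2 (q := q) (K := K) h4 h7 (D := D.image e) (lam := lam) (ds_equiv e hds)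
    (by rw [hKw]; exact hw) (by rw [hcardD, hKw, ← hcard]; exact hk)
    (by rw [hKw]; exact hcrit1) (by rw [hcardD]; exact hcrit2)
  rw [hKw, hcardD] at h
  refine ⟨h.1, fun p hp hpn => back_equiv e (h.2 p hp hpn)⟩

/-- parameters in the complementary case `2 k = v + 1` -/
theorem had_params' {D : Finset G} {lam : ℕ} (hds : IsDS D lam)
    (hk : 2 * D.card = Fintype.card G + 1) (h3 : 3 ≤ Fintype.card G) :
    D.card = 2 * lam := by
  have h := ds_count hds
  obtain ⟨m, hm⟩ : ∃ m, D.card = m + 1 := ⟨D.card - 1, by omega⟩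
  have hv : Fintype.card G = 2 * m + 1 := by omega
  rw [hv, hm] at h
  have hpos : 0 < m := by omega
  have h1 : m * (m + 1) = m * (2 * lam) := by nlinarith
  rw [hm]
  exact Nat.eq_of_mul_eq_mul_left hpos h1

/-- the criterion, both cases -/
theorem crit (q : ℕ) [Fact q.Prime] (h4 : q % 4 = 3) (h7 : 7 ≤ q) (w : ℕ)
    (hcard : Fintype.card G = q * w) (hw : Rng q w) {D : Finset G} {lam : ℕ}
    (hds : IsDS D lam) (hk : 2 * D.card + 1 = Fintype.card G ∨ 2 * D.card = Fintype.card G + 1)
    (hcrit1 : Nat.Coprime ((q - 1) / 2) (Nat.totient w))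
    (hcrit2 : ∀ l : ℕ, l.Prime → l ∣ D.card - lam → (q - 1) / 2 ∣ orderOf (l : ZMod q)) :
    (w = 1 ∨ w + 2 = q ∨ w = q + 2) ∧
    ∀ p : ℕ, p.Prime → p ∣ D.card - lam →
      ∃ g, D.image (fun z => p • z) = tr D g := by
  rcases hk with hk | hk
  · exact crit_small q h4 h7 w hcard hw hds hk hcrit1 hcrit2
  have hG0 : 0 < Fintype.card G := Fintype.card_pos
  have hw0 : 0 < w := by
    rcases Nat.eq_zero_or_pos w with h | h
    · rw [h] at hcard; omega
    · exact h
  have hqle : q ≤ Fintype.card G := by rw [hcard]; exact Nat.le_mul_of_pos_right q hw0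
  have hpar := had_params' hds hk (by omega)
  have hC : Dᶜ.card = Fintype.card G - D.card := Finset.card_compl D
  have hn : Dᶜ.card - (Fintype.card G + lam - 2 * D.card) = D.card - lam := by rw [hC]; omega
  have h := crit_small q h4 h7 w hcard hw (ds_compl hds (by omega)) (by rw [hC]; omega) hcrit1
    (by rw [hn]; exact hcrit2)
  rw [hn] at h
  refine ⟨h.1, fun p hp hpn => back_compl ?_ (h.2 p hp hpn)⟩
  -- `p` does not divide `v`, since `4 n = v + 1`
  rw [Nat.Prime.coprime_iff_not_dvd hp]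
  intro hpv
  have e1 : 4 * (D.card - lam) = Fintype.card G + 1 := by omega
  have e2 : p ∣ Fintype.card G + 1 := e1 ▸ (hpn.mul_left 4)
  have e3 : p ∣ 1 := (Nat.dvd_add_right hpv).mp e2
  exact hp.one_lt.ne' (Nat.dvd_one.mp e3)

/-- `4 n = v + 1` -/
theorem four_n {D : Finset G} {lam : ℕ} (hds : IsDS D lam)
    (hk : 2 * D.card + 1 = Fintype.card G ∨ 2 * D.card = Fintype.card G + 1)
    (h3 : 3 ≤ Fintype.card G) : 4 * (D.card - lam) = Fintype.card G + 1 := by
  rcases hk with hk | hk
  · have := had_params hds hk h3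
    omega
  · have := had_params' hds hk h3
    omega

end

/-- arithmetic of safe primes, first part -/
theorem safe_totient {q s w : ℕ} (hs : s.Prime) (hqs : q = 2 * s + 1) (h3 : 3 ≤ s)
    (hw0 : 0 < w) (hw : w + 5 < 2 * q) (hqw : ¬ q ∣ w) : Nat.Coprime s (Nat.totient w) := by
  rw [Nat.Prime.coprime_iff_not_dvd hs]
  intro h
  rw [Nat.totient_eq_div_primeFactors_mul, hs.dvd_mul] at h
  rcases h with h | h
  · have h1 : s * (∏ p ∈ w.primeFactors, p) ∣ w := by
      have e1 := Nat.mul_dvd_mul h (dvd_refl (∏ p ∈ w.primeFactors, p))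
      rwa [Nat.div_mul_cancel (Nat.prod_primeFactors_dvd w)] at e1
    have h2 : s ∣ w := (dvd_mul_right _ _).trans h1
    have h3' : s ∈ w.primeFactors := Nat.mem_primeFactors.mpr ⟨hs, h2, hw0.ne'⟩
    have h4 : s ∣ ∏ p ∈ w.primeFactors, p := Finset.dvd_prod_of_mem (fun p => p) h3'
    have h5 : s * s ∣ w := (Nat.mul_dvd_mul_left s h4).trans h1
    have h6 := Nat.le_of_dvd hw0 h5
    obtain ⟨t, ht⟩ : ∃ t, s = t + 3 := ⟨s - 3, by omega⟩
    rw [ht] at h6 hqs
    have : (t + 3) * (t + 3) = t * t + 6 * t + 9 := by ring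
    rw [hqs] at hw
    have := Nat.zero_le (t * t)
    omega
  · rw [hs.prime.dvd_finsetProd_iff] at h
    obtain ⟨p, hp, hsp⟩ := h
    have hpp := Nat.prime_of_mem_primeFactors hp
    have hpw := Nat.dvd_of_mem_primeFactors hp
    have hple := Nat.le_of_dvd hw0 hpw
    obtain ⟨m, hm⟩ := hsp
    have hp2 := hpp.two_le
    have hm4 : m < 4 := by
      by_contra hc
      push Not at hc
      have : s * 4 ≤ s * m := Nat.mul_le_mul_left s hc
      omega
    have hsodd : s % 2 = 1 := by
      rcases hs.eq_two_or_odd with h | h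
      · omega
      · exact h
    have hpodd : p % 2 = 1 := by
      rcases hpp.eq_two_or_odd with h | h
      · rw [h] at hm
        have : s ∣ 1 := ⟨m, by omega⟩
        have := Nat.le_of_dvd one_pos this
        omega
      · exact h
    interval_cases m
    · omega
    · omega
    · have : p = q := by omega
      exact hqw (this ▸ hpw)
    · omega

/-- arithmetic of safe primes, second part -/
theorem safe_order {q s w n l : ℕ} [Fact q.Prime] (hs : s.Prime) (hqs : q = 2 * s + 1)
    (h3 : 3 ≤ s) (hw : w + 5 < 2 * q) (hn : 4 * n = q * w + 1) (hl : l.Prime) (hln : l ∣ n) :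
    s ∣ orderOf (l : ZMod q) := by
  have hq : q.Prime := Fact.out
  have hq7 : 7 ≤ q := by omega
  -- `l` is not zero modulo `q`
  have hlq : (l : ZMod q) ≠ 0 := by
    intro hc
    rw [ZMod.natCast_eq_zero_iff] at hc
    have h1 : q ∣ q * w + 1 := by
      rw [← hn]
      exact (hc.trans hln).mul_left 4
    have h2 : q ∣ 1 := (Nat.dvd_add_right (dvd_mul_right q w)).mp h1
    have := Nat.le_of_dvd one_pos h2
    omega
  by_contra hns
  have h1 : orderOf (l : ZMod q) ∣ 2 * s := by
    apply orderOf_dvd_of_pow_eq_one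
    have e0 : 2 * s = q - 1 := by omega
    rw [e0]
    exact ZMod.pow_card_sub_one_eq_one hlq
  have h2 : Nat.Coprime (orderOf (l : ZMod q)) s := by
    rw [Nat.coprime_comm, Nat.Prime.coprime_iff_not_dvd hs]
    exact hns
  have h3' : orderOf (l : ZMod q) ∣ 2 := h2.dvd_of_dvd_mul_right h1
  have h4 : (l : ZMod q) ^ 2 = 1 := orderOf_dvd_iff_pow_eq_one.mp h3'
  obtain ⟨l', hl'⟩ := hln
  have hn4 : (4 : ZMod q) * (l : ZMod q) * (l' : ZMod q) = 1 := by
    have : ((4 * n : ℕ) : ZMod q) = ((q * w + 1 : ℕ) : ZMod q) := by rw [hn]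
    rw [hl'] at this
    push_cast at this
    rw [ZMod.natCast_self, zero_mul, zero_add] at this
    rw [← this]; ring
  have hl2 := hl.two_le
  have hl0 : 0 < l' := by
    rcases Nat.eq_zero_or_pos l' with h | h
    · rw [h, mul_zero] at hl'
      rw [hl'] at hn
      omega
    · exact h
  have hlodd : l ≠ 2 → l % 2 = 1 := by
    intro hne
    rcases hl.eq_two_or_odd with h | h
    · exact absurd h hne
    · exact h
  have hqodd : q % 2 = 1 := by omega
  have hwle : w + 6 ≤ 2 * q := by omega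
  have hqw : q * (w + 6) ≤ q * (2 * q) := Nat.mul_le_mul_left q hwle
  have h4' : (l : ZMod q) * (l : ZMod q) = 1 := by rw [← pow_two]; exact h4
  rcases mul_self_eq_one_iff.mp h4' with h5 | h5
  · -- l = 1 mod q
    rw [h5] at hn4
    have e1 : q ∣ l - 1 := by
      rw [← ZMod.natCast_eq_zero_iff, Nat.cast_sub (by omega), h5]
      simp
    have e2 : q ∣ 4 * l' - 1 := by
      rw [← ZMod.natCast_eq_zero_iff, Nat.cast_sub (by omega)]
      push_cast
      rw [mul_one] at hn4
      rw [hn4, sub_self]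
    have e3 := Nat.le_of_dvd (by omega) e1
    have e4 := Nat.le_of_dvd (by omega) e2
    have hlo := hlodd (by omega)
    obtain ⟨m, hm⟩ := e1
    have hm2 : 2 ≤ m := by
      by_contra hc
      push Not at hc
      interval_cases m
      · omega
      · omega
    have e5 : q * 2 ≤ q * m := Nat.mul_le_mul_left q hm2
    have e6 : 2 * q + 1 ≤ l := by omega
    have e7 : (2 * q + 1) * (q + 1) ≤ l * (4 * l') := Nat.mul_le_mul e6 (by omega)
    rw [hl'] at hn
    nlinarith
  · -- l = -1 mod q
    rw [h5] at hn4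
    have e1 : q ∣ l + 1 := by
      rw [← ZMod.natCast_eq_zero_iff]
      push_cast
      rw [h5]
      ring
    have e2 : q ∣ 4 * l' + 1 := by
      rw [← ZMod.natCast_eq_zero_iff]
      push_cast
      linear_combination -hn4
    have e3 := Nat.le_of_dvd (by omega) e1
    have e4 := Nat.le_of_dvd (by omega) e2
    have hlo := hlodd (by omega)
    obtain ⟨m, hm⟩ := e1
    have hm2 : 2 ≤ m := by
      by_contra hc
      push Not at hc
      interval_cases m
      · omega
      · omega
    have e5 : q * 2 ≤ q * m := Nat.mul_le_mul_left q hm2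
    have e6 : 2 * q ≤ l + 1 := by omega
    obtain ⟨a, ha⟩ : ∃ a, 2 * q = a + 1 := ⟨2 * q - 1, by omega⟩
    obtain ⟨b, hb⟩ : ∃ b, q = b + 1 := ⟨q - 1, by omega⟩
    have e7 : a * b ≤ l * (4 * l') := Nat.mul_le_mul (by omega) (by omega)
    rw [hl'] at hn
    nlinarith

/-- safe primes -/
theorem safe {G : Type} [AddCommGroup G] [Fintype G] [DecidableEq G]
    (q : ℕ) [Fact q.Prime] (hs : ((q - 1) / 2).Prime) (h7 : 7 ≤ q) (w : ℕ)
    (hcard : Fintype.card G = q * w) (hw : w + 5 < 2 * q) {D : Finset G} {lam : ℕ}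
    (hds : IsDS D lam) (hk : 2 * D.card + 1 = Fintype.card G ∨ 2 * D.card = Fintype.card G + 1) :
    (w = 1 ∨ w + 2 = q ∨ w = q + 2) ∧
    ∀ p : ℕ, p.Prime → p ∣ D.card - lam →
      ∃ g, D.image (fun z => p • z) = tr D g := by
  have hq : q.Prime := Fact.out
  have hqodd : q % 2 = 1 := by
    rcases hq.eq_two_or_odd with h | h
    · omega
    · exact h
  have hqs : q = 2 * ((q - 1) / 2) + 1 := by omega
  set s := (q - 1) / 2 with hsdef
  have h3 : 3 ≤ s := by omega
  have hsodd : s % 2 = 1 := by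
    rcases hs.eq_two_or_odd with h | h
    · omega
    · exact h
  have h4 : q % 4 = 3 := by omega
  have hG0 : 0 < Fintype.card G := Fintype.card_pos
  have hw0 : 0 < w := by
    rcases Nat.eq_zero_or_pos w with h | h
    · rw [h] at hcard; omega
    · exact h
  have hqle : q ≤ Fintype.card G := by rw [hcard]; exact Nat.le_mul_of_pos_right q hw0
  have hn := four_n hds hk (by omega)
  rw [hcard] at hn
  have hqw : ¬ q ∣ w := by
    rintro ⟨m, hm⟩
    have hm1 : m = 1 := by
      rw [hm] at hw hw0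
      have : m < 2 := by
        by_contra hc
        push Not at hc
        have : q * 2 ≤ q * m := Nat.mul_le_mul_left q hc
        omega
      rcases Nat.eq_zero_or_pos m with h | h
      · rw [h] at hw0; omega
      · omega
    rw [hm, hm1, mul_one] at hn
    obtain ⟨r, hr⟩ : ∃ r, q = 4 * r + 3 := ⟨q / 4, by omega⟩
    have e1 : q * q = 4 * (4 * r * r + 6 * r + 2) + 1 := by rw [hr]; ring
    omega
  exact crit q h4 h7 w hcard (Or.inl hw) hds hk (safe_totient hs hqs h3 hw0 hw hqw)
    (fun l hl hln => safe_order hs hqs h3 hw hn hl hln)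

end Pool.Agent.MultConj
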