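import Mathlib

set_option autoImplicit false

namespace Pool.Agent.MultConj

/-- In a finite monoid some positive power of every element is idempotent. -/
theorem exists_idem_pow {M : Type*} [Monoid M] [Finite M] (x : M) :
    ∃ m, 0 < m ∧ x ^ m * x ^ m = x ^ m := by
  obtain ⟨i, j, hij, h⟩ := Finite.exists_ne_map_eq_of_infinite (fun n : ℕ => x ^ n)
  wlog hlt : i < j generalizing i j
  · exact this j i hij.symm h.symm (by omega)

  obtain ⟨c, hc⟩ : ∃ c, j = i + c := ⟨j - i, by omega⟩
  have hc0 : 0 < c := by omega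
  have hper : ∀ n, i ≤ n → x ^ (n + c) = x ^ n := by
    intro n hn
    obtain ⟨k, rfl⟩ : ∃ k, n = i + k := ⟨n - i, by omega⟩
    have h2 : i + k + c = j + k := by omega
    rw [h2, pow_add, ← h, ← pow_add]
  have hper2 : ∀ k n, i ≤ n → x ^ (n + k * c) = x ^ n := by
    intro k
    induction k with
    | zero => intro n hn; simp
    | succ k ih =>
      intro n hn
      have h3 : n + (k + 1) * c = (n + k * c) + c := by ring
      rw [h3, hper _ (by omega), ih n hn]
  refine ⟨(i + 1) * c, by positivity, ?_⟩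
  rw [← pow_add]
  have h4 : i ≤ (i + 1) * c := by nlinarith
  exact hper2 (i + 1) _ h4

section
variable {R : Type*} [CommRing R] (p a : ℕ) (φ : R →+* R)

theorem frob_idem (hp : 0 < p) (hpa : (p : R) ^ a = 0)
    (H1 : ∀ x, ∃ z, φ x = x ^ p + p * z) (e : R) (he : e * e = e) : φ e = e := by
  obtain ⟨z, hz⟩ := H1 e
  have hep : e ^ p = e := by
    have : IsIdempotentElem e := he
    exact this.pow_eq (by omega)
  have hf : φ e * φ e = φ e := by rw [← map_mul, he]
  set d := φ e - e with hd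
  have hdz : d = p * z := by rw [hd, hz, hep]; ring
  have hd3 : d ^ 3 = d := by
    have : d ^ 3 = φ e * φ e * φ e - 3 * (φ e * φ e) * e + 3 * φ e * (e * e) - e * e * e := by
      rw [hd]; ring
    rw [this, hf, he, hf, he, hd]; ring
  have hdk : ∀ k : ℕ, d ^ (3 ^ k) = d := by
    intro k
    induction k with
    | zero => simp
    | succ k ih => rw [pow_succ, pow_mul, ih, hd3]
  have h0 : d = 0 := by
    have h5 : a ≤ 3 ^ a := (Nat.lt_pow_self (by norm_num)).le
    obtain ⟨b, hb⟩ := Nat.exists_eq_add_of_le h5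
    rw [← hdk a, hdz, mul_pow, hb, pow_add, hpa]; ring
  have := sub_eq_zero.mp (hd ▸ h0 : φ e - e = 0)
  exact this

/-- A lift of Frobenius maps every element to a multiple of itself, when the ring is
finite, `p` is nilpotent and the reduction mod `p` is reduced. -/
theorem frob_dvd [Finite R] (hp : 0 < p) (hpa : (p : R) ^ a = 0)
    (H1 : ∀ x, ∃ z, φ x = x ^ p + p * z)
    (H2 : ∀ (x : R) (m : ℕ), (∃ z, x ^ m = p * z) → ∃ z, x = p * z) (x : R) : x ∣ φ x := by
  have claim : ∀ j : ℕ, ∀ x : R, ∃ u z, φ x = u * x + (p : R) ^ j * z := by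
    intro j
    induction j with
    | zero => intro x; exact ⟨0, φ x, by simp⟩
    | succ j ih =>
      intro x
      obtain ⟨m, hm, hidem⟩ := exists_idem_pow x
      have he := frob_idem p a φ hp hpa H1 (x ^ m) hidem
      obtain ⟨x1, hx1⟩ := H2 ((1 - x ^ m) * x) m (by
        refine ⟨0, ?_⟩
        have h1 : IsIdempotentElem (1 - x ^ m) := IsIdempotentElem.one_sub hidem
        rw [mul_pow, h1.pow_eq (by omega)]
        have : (1 - x ^ m) * x ^ m = x ^ m - x ^ m * x ^ m := by ring
        rw [this, hidem]; ring)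
      obtain ⟨u1, z, hu⟩ := ih x1
      obtain ⟨m', rfl⟩ : ∃ m', m = m' + 1 := ⟨m - 1, by omega⟩
      refine ⟨x ^ m' * φ x + u1 * (1 - x ^ (m' + 1)), z, ?_⟩
      have h2 : φ ((1 - x ^ (m' + 1)) * x) = φ (p * x1) := by rw [hx1]
      have h3 : φ ((1 - x ^ (m' + 1)) * x) = (1 - x ^ (m' + 1)) * φ x := by
        rw [map_mul, map_sub, map_one, he]
      have h4 : φ (p * x1) = p * φ x1 := by rw [map_mul, map_natCast]
      have h5 : φ x = x ^ (m' + 1) * φ x + (1 - x ^ (m' + 1)) * φ x := by ring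
      have h6 : (1 - x ^ (m' + 1)) * φ x = u1 * ((1 - x ^ (m' + 1)) * x) + (p : R) ^ (j + 1) * z := by
        rw [← h3, h2, h4, hu, hx1]; ring
      calc φ x = x ^ (m' + 1) * φ x + (1 - x ^ (m' + 1)) * φ x := h5
        _ = x ^ (m' + 1) * φ x + (u1 * ((1 - x ^ (m' + 1)) * x) + (p : R) ^ (j + 1) * z) := by
            rw [h6]
        _ = _ := by ring
  obtain ⟨u, z, hu⟩ := claim a x
  rw [hpa, zero_mul, add_zero] at hu
  exact ⟨u, by rw [hu, mul_comm]⟩
end

end Pool.Agent.MultConj
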