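import Pool.Agent.Lib.MP_5e14a0_co.Frob

set_option autoImplicit false

namespace Pool.Agent.MultConj

open AddMonoidAlgebra

section
variable {G : Type} [AddCommGroup G] [Fintype G] [DecidableEq G]

/-- multiplication by `p` on the group ring -/
noncomputable def phi (N p : ℕ) (G : Type) [AddCommGroup G] :
    AddMonoidAlgebra (ZMod N) G →+* AddMonoidAlgebra (ZMod N) G :=
  mapDomainRingHom (ZMod N) (nsmulAddMonoidHom p : G →+ G)

theorem phi_single (N p : ℕ) (g : G) (r : ZMod N) : phi N p G (single g r) = single (p • g) r := by
  simp [phi]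

theorem finite_gr (N : ℕ) [NeZero N] : Finite (AddMonoidAlgebra (ZMod N) G) := by
  haveI : Finite (ZMod N) := inferInstance
  haveI : Finite (G → ZMod N) := inferInstance
  refine Finite.of_injective (fun x : AddMonoidAlgebra (ZMod N) G => (fun g => x.coeff g)) ?_
  intro x y h
  ext g
  exact congrFun h g

instance charP_gr (p : ℕ) [Fact p.Prime] : CharP (AddMonoidAlgebra (ZMod p) G) p := by
  have hinj : Function.Injective (singleZeroRingHom : ZMod p →+* AddMonoidAlgebra (ZMod p) G) := by
    intro a b h
    have := congrArg (fun x => x.coeff 0) h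
    simpa using this
  exact charP_of_injective_ringHom hinj p

theorem frob_fp (p : ℕ) [Fact p.Prime] (y : AddMonoidAlgebra (ZMod p) G) :
    y ^ p = phi p p G y := by
  have h : frobenius (AddMonoidAlgebra (ZMod p) G) p = phi p p G := by
    apply ringHom_ext
    · intro r
      simp [frobenius_def, phi_single, single_pow, ZMod.pow_card]
    · intro m
      simp [frobenius_def, phi_single, single_pow]
  rw [← frobenius_def, h]

theorem phi_inj (N p : ℕ) (h : Nat.Coprime p (Fintype.card G)) :
    Function.Injective (phi N p G) := by
  have h1 : Function.Injective (fun g : G => p • g) := by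
    intro x y hxy
    have h2 : p • (x - y) = 0 := by
      simp only at hxy
      rw [smul_sub, hxy, sub_self]
    have h3 : addOrderOf (x - y) ∣ p := addOrderOf_dvd_of_nsmul_eq_zero h2
    have h4 : addOrderOf (x - y) ∣ Fintype.card G := addOrderOf_dvd_card
    have h5 : addOrderOf (x - y) ∣ 1 := by
      have := Nat.dvd_gcd h3 h4
      rwa [h] at this
    have h6 : addOrderOf (x - y) = 1 := Nat.dvd_one.mp h5
    exact sub_eq_zero.mp (AddMonoid.addOrderOf_eq_one_iff.mp h6)
  exact mapDomain_injective h1

end

end Pool.Agent.MultConj
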