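import Pool.Agent.Lib.MP_5e14a0_co.GR

set_option autoImplicit false
set_option linter.unusedSectionVars false

namespace Pool.Agent.MultConj

open AddMonoidAlgebra

section
variable {G : Type} [AddCommGroup G] [Fintype G] [DecidableEq G]

/-- reduction modulo `p` -/
noncomputable def red (p a : ℕ) (ha : 0 < a) (G : Type) [AddCommGroup G] :
    AddMonoidAlgebra (ZMod (p ^ a)) G →+* AddMonoidAlgebra (ZMod p) G :=
  mapRingHom G (ZMod.castHom (dvd_pow_self p (by omega)) (ZMod p))

theorem red_single (p a : ℕ) (ha : 0 < a) (g : G) (r : ZMod (p ^ a)) :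
    red p a ha G (single g r) = single g (ZMod.castHom (dvd_pow_self p (by omega)) (ZMod p) r) := by
  simp [red]

theorem red_phi (p a : ℕ) (ha : 0 < a) (q : ℕ) (x : AddMonoidAlgebra (ZMod (p ^ a)) G) :
    red p a ha G (phi (p ^ a) q G x) = phi p q G (red p a ha G x) := by
  have h : (red p a ha G).comp (phi (p ^ a) q G) = (phi p q G).comp (red p a ha G) := by
    apply ringHom_ext
    · intro r
      simp [phi_single, red_single]
    · intro m
      simp [phi_single, red_single]
  exact congrArg (fun f => f x) h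

theorem red_ker (p a : ℕ) [Fact p.Prime] (ha : 0 < a) (y : AddMonoidAlgebra (ZMod (p ^ a)) G)
    (h : red p a ha G y = 0) : ∃ z, y = p * z := by
  have hp : p.Prime := Fact.out
  haveI : NeZero (p ^ a) := ⟨pow_ne_zero _ hp.pos.ne'⟩
  refine ⟨.ofCoeff (Finsupp.equivFunOnFinite.symm
    (fun g => (((y.coeff g).val / p : ℕ) : ZMod (p ^ a)))), ?_⟩
  ext g
  have h1 : (ZMod.castHom (dvd_pow_self p (by omega : a ≠ 0)) (ZMod p)) (y.coeff g) = 0 := by
    have := congrArg (fun x => x.coeff g) h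
    simpa [red] using this
  have h2 : p ∣ (y.coeff g).val := by
    have h3 : ((y.coeff g).val : ZMod p) = 0 := by
      rw [← h1]
      conv_rhs => rw [← ZMod.natCast_zmod_val (y.coeff g)]
      rw [map_natCast]
    exact (ZMod.natCast_eq_zero_iff _ _).mp h3
  have h4 : ((p : AddMonoidAlgebra (ZMod (p ^ a)) G) *
      (.ofCoeff (Finsupp.equivFunOnFinite.symm
        (fun g => (((y.coeff g).val / p : ℕ) : ZMod (p ^ a)))))).coeff g
      = (p : ZMod (p ^ a)) * (((y.coeff g).val / p : ℕ) : ZMod (p ^ a)) := by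
    rw [natCast_def, coeff_single_zero_mul]
    simp
  rw [h4, ← Nat.cast_mul, Nat.mul_div_cancel' h2, ZMod.natCast_zmod_val]

theorem phi_iter_fp (p : ℕ) [Fact p.Prime] (y : AddMonoidAlgebra (ZMod p) G) (k : ℕ) :
    y ^ (p ^ k) = (phi p p G)^[k] y := by
  induction k with
  | zero => simp
  | succ k ih => rw [pow_succ, pow_mul, ih, frob_fp, Function.iterate_succ_apply']

theorem fp_reduced (p : ℕ) [Fact p.Prime] (h : Nat.Coprime p (Fintype.card G))
    (y : AddMonoidAlgebra (ZMod p) G) (m : ℕ) (hm : y ^ m = 0) : y = 0 := by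
  have hp : p.Prime := Fact.out
  have h1 : m ≤ p ^ m := (Nat.lt_pow_self hp.one_lt).le
  obtain ⟨b, hb⟩ := Nat.exists_eq_add_of_le h1
  have h2 : y ^ (p ^ m) = 0 := by rw [hb, pow_add, hm, zero_mul]
  rw [phi_iter_fp] at h2
  have h3 : Function.Injective ((phi p p G)^[m]) := (phi_inj p p h).iterate m
  apply h3
  rw [h2]
  exact (Function.iterate_fixed (map_zero (phi p p G)) m).symm

theorem dvd_phi (p a : ℕ) [Fact p.Prime] (ha : 0 < a) (h : Nat.Coprime p (Fintype.card G))
    (x : AddMonoidAlgebra (ZMod (p ^ a)) G) : x ∣ phi (p ^ a) p G x := by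
  have hp : p.Prime := Fact.out
  haveI : NeZero (p ^ a) := ⟨pow_ne_zero _ hp.pos.ne'⟩
  haveI : Finite (AddMonoidAlgebra (ZMod (p ^ a)) G) := finite_gr (p ^ a)
  refine frob_dvd p a (phi (p ^ a) p G) hp.pos ?_ ?_ ?_ x
  · rw [← Nat.cast_pow, natCast_def, ZMod.natCast_self, single_zero]
  · intro x
    obtain ⟨z, hz⟩ := red_ker p a ha (phi (p ^ a) p G x - x ^ p) (by
      rw [map_sub, red_phi, map_pow, frob_fp, sub_self])
    exact ⟨z, by rw [← hz]; ring⟩
  · rintro x m ⟨z, hz⟩
    apply red_ker p a ha x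
    apply fp_reduced p h _ m
    rw [← map_pow, hz, map_mul, map_natCast]
    rw [natCast_def, ZMod.natCast_self, single_zero, zero_mul]

theorem dvd_phi_iter (p a : ℕ) [Fact p.Prime] (ha : 0 < a) (h : Nat.Coprime p (Fintype.card G))
    (x : AddMonoidAlgebra (ZMod (p ^ a)) G) (j : ℕ) : x ∣ (phi (p ^ a) p G)^[j] x := by
  induction j with
  | zero => simp
  | succ j ih =>
    rw [Function.iterate_succ_apply']
    exact ih.trans (dvd_phi p a ha h _)

end

end Pool.Agent.MultConj
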