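import Pool.Agent.Lib.MP_5e14a0_co.MainProd

set_option autoImplicit false
set_option linter.unusedSectionVars false
set_option linter.style.haveILetI false

namespace Pool.Agent.MultConj

theorem smul_congr {K : Type} [AddCommGroup K] [Fintype K] {a b : ℕ}
    (h : a ≡ b [MOD Fintype.card K]) (y : K) : a • y = b • y :=
  nsmul_eq_nsmul_iff_modEq.mpr (h.of_dvd addOrderOf_dvd_card)

/-- every non-zero square modulo `q` is a power of `ℓ ^ φ(w)` -/
theorem exists_pow {q : ℕ} [Fact q.Prime] (hq2 : q ≠ 2) (l ps : ℕ) (hl : (l : ZMod q) ≠ 0)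
    (hcop : Nat.Coprime ((q - 1) / 2) ps)
    (hord : (q - 1) / 2 ∣ orderOf (l : ZMod q)) (hps : 0 < ps) (u : ZMod q) (hu : u ≠ 0)
    (hsq : IsSquare u) : ∃ i : ℕ, ((l : ZMod q) ^ ps) ^ i = u := by
  have hq : q.Prime := Fact.out
  have hodd : 2 ∣ q - 1 := by
    have := hq.eq_two_or_odd
    omega
  set h := (q - 1) / 2 with hh
  have h2h : 2 * h = q - 1 := Nat.mul_div_cancel' hodd
  have h1 : h ∣ orderOf ((l : ZMod q) ^ ps) := by
    rw [orderOf_pow' _ hps.ne']
    set d := orderOf (l : ZMod q) with hd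
    have e1 : d / Nat.gcd d ps * Nat.gcd d ps = d := Nat.div_mul_cancel (Nat.gcd_dvd_left _ _)
    have e2 : h ∣ d / Nat.gcd d ps * Nat.gcd d ps := by rw [e1]; exact hord
    exact (Nat.Coprime.coprime_dvd_right (Nat.gcd_dvd_right d ps) hcop).dvd_of_dvd_mul_right e2
  have h2 : u ^ h = 1 := by
    obtain ⟨v, rfl⟩ := hsq
    have hv : v ≠ 0 := by
      rintro rfl
      simp at hu
    rw [← pow_two, ← pow_mul, h2h]
    exact ZMod.pow_card_sub_one_eq_one hv
  obtain ⟨m, hm⟩ := h1
  have h3 : u ^ orderOf ((l : ZMod q) ^ ps) = 1 := by rw [hm, pow_mul, h2, one_pow]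
  have h4 := IsPrimitiveRoot.orderOf ((l : ZMod q) ^ ps)
  have hpos : 0 < orderOf ((l : ZMod q) ^ ps) := by
    rw [orderOf_pos_iff, isOfFinOrder_iff_pow_eq_one]
    exact ⟨q - 1, by have := hq.two_le; omega, ZMod.pow_card_sub_one_eq_one (pow_ne_zero _ hl)⟩
  haveI : NeZero (orderOf ((l : ZMod q) ^ ps)) := ⟨hpos.ne'⟩
  obtain ⟨i, _, hi⟩ := h4.eq_pow_of_pow_eq_one h3
  exact ⟨i, hi⟩

section
variable {q : ℕ} [Fact q.Prime] {K : Type} [AddCommGroup K] [Fintype K] [DecidableEq K]

/-- the set of difference set multipliers contains all squares of the first coordinate -/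
theorem QInv_of_crit (h4 : q % 4 = 3) {D : Finset (ZMod q × K)} {lam : ℕ}
    (hds : IsDS D lam) (hlt : lam < D.card) (h0 : ∑ x ∈ D, x = 0)
    (hqw : Nat.Coprime q (Fintype.card K))
    (hcopD : Nat.Coprime D.card (Fintype.card (ZMod q × K)))
    (hcopn : Nat.Coprime (D.card - lam) (Fintype.card (ZMod q × K)))
    (hcrit1 : Nat.Coprime ((q - 1) / 2) (Nat.totient (Fintype.card K)))
    (hcrit2 : ∀ l : ℕ, l.Prime → l ∣ D.card - lam → (q - 1) / 2 ∣ orderOf (l : ZMod q)) :
    QInv D := by
  have hq : q.Prime := Fact.out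
  have hw0 : 0 < Fintype.card K := Fintype.card_pos
  intro u hu hsq x y
  -- the integer t
  obtain ⟨t, ht1, ht2⟩ := Nat.chineseRemainder hqw u.val 1
  have htq : (t : ZMod q) = u := by
    have := (ZMod.natCast_eq_natCast_iff _ _ _).mpr ht1
    rw [this, ZMod.natCast_zmod_val]
  have hact : ∀ z : ZMod q × K, t • z = (u * z.1, z.2) := by
    rintro ⟨a, b⟩
    rw [Prod.smul_mk, nsmul_eq_mul, htq, smul_congr ht2 b, one_smul]
  have htcop : Nat.Coprime t (Fintype.card (ZMod q × K)) := by
    rw [Fintype.card_prod, ZMod.card]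
    apply Nat.Coprime.mul_right
    · rw [Nat.coprime_comm, Nat.Prime.coprime_iff_not_dvd hq]
      intro hc
      rw [← ZMod.natCast_eq_zero_iff, htq] at hc
      exact hu hc
    · have := ht2.gcd_eq
      rw [Nat.gcd_one_left] at this
      exact this
  have hinj : Function.Injective (fun z : ZMod q × K => t • z) := smul_inj htcop
  have hmul : ∃ g, D.image (fun z => t • z) = tr D g := by
    apply multiplier hds hlt t hcopn _ hinj
    intro l hl hln
    have hlq : (l : ZMod q) ≠ 0 := by
      intro hc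
      rw [ZMod.natCast_eq_zero_iff] at hc
      have e1 : q ∣ Fintype.card (ZMod q × K) := by
        rw [Fintype.card_prod, ZMod.card]; exact dvd_mul_right _ _
      have e2 := Nat.dvd_gcd (hc.trans hln) e1
      rw [hcopn] at e2
      exact hq.one_lt.ne' (Nat.dvd_one.mp e2)
    have hlw : Nat.Coprime l (Fintype.card K) := by
      have e1 : Fintype.card K ∣ Fintype.card (ZMod q × K) := by
        rw [Fintype.card_prod]; exact dvd_mul_left _ _
      exact Nat.Coprime.coprime_dvd_left hln (Nat.Coprime.coprime_dvd_right e1 hcopn)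
    obtain ⟨i, hi⟩ := exists_pow (by rintro rfl; omega) l (Nat.totient (Fintype.card K)) hlq hcrit1
      (hcrit2 l hl hln) (Nat.totient_pos.mpr hw0) u hu hsq
    refine ⟨Nat.totient (Fintype.card K) * i, fun z => ?_⟩
    rw [hact]
    obtain ⟨a, b⟩ := z
    rw [Prod.smul_mk, nsmul_eq_mul]
    have e3 : l ^ (Nat.totient (Fintype.card K) * i) ≡ 1 [MOD Fintype.card K] := by
      rw [pow_mul]
      have := (Nat.ModEq.pow_totient hlw).pow i
      rwa [one_pow] at this
    rw [smul_congr e3 b, one_smul]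
    push_cast
    rw [pow_mul, hi]
  have hfix := fix_of_zero_sum D hcopD h0 t hinj hmul
  unfold ind
  have : ((u * x, y) ∈ D) ↔ ((x, y) ∈ D) := by
    constructor
    · intro h
      rw [← hfix, Finset.mem_image] at h
      obtain ⟨z, hz, hzz⟩ := h
      have : z = (x, y) := by
        apply hinj
        simp only
        rw [hzz, hact]
      rwa [← this]
    · intro h
      rw [← hfix, Finset.mem_image]
      exact ⟨(x, y), h, hact _⟩
  simp only [this]

theorem main_crit (h4 : q % 4 = 3) (h7 : 7 ≤ q) {D : Finset (ZMod q × K)} {lam : ℕ}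
    (hds : IsDS D lam) (hw : Fintype.card K + 5 < 2 * q)
    (hk : 2 * D.card + 1 = q * Fintype.card K)
    (hcrit1 : Nat.Coprime ((q - 1) / 2) (Nat.totient (Fintype.card K)))
    (hcrit2 : ∀ l : ℕ, l.Prime → l ∣ D.card - lam → (q - 1) / 2 ∣ orderOf (l : ZMod q)) :
    (Fintype.card K = 1 ∨ Fintype.card K + 2 = q ∨ Fintype.card K = q + 2) ∧
    ∀ p : ℕ, p.Prime → p ∣ D.card - lam →
      ∃ g, D.image (fun z => p • z) = tr D g := by
  have hq : q.Prime := Fact.out
  have hw0 : 0 < Fintype.card K := Fintype.card_pos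
  have hk0 : 0 < D.card := by
    rcases Nat.eq_zero_or_pos D.card with h | h
    · rw [h] at hk
      have : q ∣ 1 := ⟨Fintype.card K, by omega⟩
      have := Nat.le_of_dvd one_pos this
      omega
    · exact h
  have hlam := lam_eq hds hk hk0
  have hcardG : Fintype.card (ZMod q × K) = 2 * D.card + 1 := by
    rw [Fintype.card_prod, ZMod.card, hk]
  have hqw : Nat.Coprime q (Fintype.card K) := by
    rw [Nat.Prime.coprime_iff_not_dvd hq]
    rintro ⟨m, hm⟩
    have hm1 : m = 1 := by
      rw [hm] at hw hw0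
      have : m < 2 := by
        by_contra hc
        push Not at hc
        have : q * 2 ≤ q * m := Nat.mul_le_mul_left q hc
        omega
      rcases Nat.eq_zero_or_pos m with h | h
      · rw [h] at hw0; omega
      · omega
    rw [hm, hm1, mul_one] at hk
    obtain ⟨r, hr⟩ : ∃ r, q = 4 * r + 3 := ⟨q / 4, by omega⟩
    have e1 : q * q = 4 * (4 * r * r + 6 * r + 2) + 1 := by rw [hr]; ring
    omega
  have hcopD : Nat.Coprime D.card (Fintype.card (ZMod q × K)) := by
    rw [hcardG]
    have : Nat.gcd D.card (2 * D.card + 1) = 1 := by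
      rw [add_comm, mul_comm, Nat.gcd_add_mul_left_right]
      exact Nat.gcd_one_right _
    exact this
  have hcopn : Nat.Coprime (D.card - lam) (Fintype.card (ZMod q × K)) := by
    rw [hcardG]
    have e1 : D.card - lam = lam + 1 := by omega
    have e2 : 2 * D.card + 1 = (lam + 1) * 4 - 1 := by omega
    rw [e1, e2]
    have : Nat.gcd (lam + 1) ((lam + 1) * 4 - 1) = 1 := by
      have h1 : Nat.gcd (lam + 1) ((lam + 1) * 4 - 1) ∣ 1 := by
        have h2 := Nat.gcd_dvd_left (lam + 1) ((lam + 1) * 4 - 1)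
        have h3 := Nat.gcd_dvd_right (lam + 1) ((lam + 1) * 4 - 1)
        have h4' : Nat.gcd (lam + 1) ((lam + 1) * 4 - 1) ∣ ((lam + 1) * 4 - 1) + 1 := by
          have : ((lam + 1) * 4 - 1) + 1 = (lam + 1) * 4 := by omega
          rw [this]
          exact h2.mul_right _
        exact (Nat.dvd_add_right h3).mp h4'
      exact Nat.dvd_one.mp h1
    exact this
  obtain ⟨c, hc⟩ := exists_zero_sum D hcopD
  have hQ : QInv (tr D c) := by
    apply QInv_of_crit h4 (ds_tr hds c) (by rw [tr_card]; omega) hc hqw (by rw [tr_card]; exact hcopD)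
      (by rw [tr_card]; exact hcopn) hcrit1
    intro l hl hln
    rw [tr_card] at hln
    exact hcrit2 l hl hln
  obtain ⟨h1, h2⟩ := main_prod h4 h7 hQ (ds_tr hds c) hw (by rw [tr_card]; exact hk)
  refine ⟨h1, ?_⟩
  intro p hp hpn
  obtain ⟨g, hg⟩ := h2 p hp (by rw [tr_card]; exact hpn)
  rw [image_tr, tr_tr] at hg
  refine ⟨(c + g) + -(p • c), ?_⟩
  have h3 := congrArg (fun E => tr E (-(p • c))) hg
  simp only [tr_tr, add_neg_cancel, tr_zero] at h3
  exact h3

end

end Pool.Agent.MultConj
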