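import Pool.Agent.Lib.MP_5e14a0_co.Struct

set_option autoImplicit false
set_option linter.unusedSectionVars false
set_option linter.style.haveILetI false

namespace Pool.Agent.MultConj

section
variable {q : ℕ} [Fact q.Prime] {K : Type} [AddCommGroup K] [Fintype K] [DecidableEq K]

theorem De_bound (D : Finset (ZMod q × K)) (y : K) : -1 ≤ De D y ∧ De D y ≤ 1 := by
  unfold De
  rcases ind_01 D 1 y with h | h <;> rcases ind_01 D (-1) y with h' | h' <;> rw [h, h'] <;> simp

theorem key (h4 : q % 4 = 3) {A B : Finset (ZMod q × K)} (hA : QInv A) (hB : QInv B)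
    (s s' : ℤ) (hs' : s' = 1 ∨ s' = -1) (hAa : ∀ y, al A y = s + if y = 0 then s' else 0)
    (hBa : ∀ y, al B y = s + if y = 0 then s' else 0) (hA0 : s * ∑ y, De A y = 0)
    (hB0 : s * ∑ y, De B y = 0) (y : K) (p : ℕ) (hp : 2 ≤ p)
    (h : (p : ℤ) ∣ (Cnt A B (1, y) : ℤ) - Cnt A B (-1, y)) : De A y = De B (-y) := by
  obtain ⟨m, hm⟩ := h
  have h1 := diff_formula h4 hA hB y
  rw [hm] at h1
  have h2 : ∑ y2 : K, (De A (y + y2) * al B y2 - al A (y + y2) * De B y2)
      = s' * (De A y - De B (-y)) := by
    rw [Finset.sum_sub_distrib]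
    have e1 : ∑ y2 : K, De A (y + y2) * al B y2 = s' * De A y := by
      have : ∀ y2 : K, De A (y + y2) * al B y2
          = s * De A (y + y2) + (if y2 = 0 then s' * De A y else 0) := by
        intro y2
        rw [hBa]
        by_cases hy : y2 = 0
        · rw [hy, if_pos rfl, if_pos rfl, add_zero]; ring
        · rw [if_neg hy, if_neg hy]; ring
      rw [Finset.sum_congr rfl (fun y2 _ => this y2), Finset.sum_add_distrib, ← Finset.mul_sum,
        Finset.sum_ite_eq' Finset.univ (0 : K) (fun _ => s' * De A y)]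
      have e2 : ∑ y2 : K, De A (y + y2) = ∑ y, De A y :=
        Fintype.sum_equiv (Equiv.addLeft y) _ _ (fun _ => rfl)
      rw [e2, hA0]
      simp
    have e3 : ∑ y2 : K, al A (y + y2) * De B y2 = s' * De B (-y) := by
      have : ∀ y2 : K, al A (y + y2) * De B y2
          = s * De B y2 + (if y2 = -y then s' * De B (-y) else 0) := by
        intro y2
        rw [hAa]
        by_cases hy : y2 = -y
        · rw [hy, if_pos (by simp), if_pos rfl]; ring
        · have : ¬ (y + y2 = 0) := by
            intro hh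
            exact hy (by rw [eq_neg_iff_add_eq_zero, add_comm]; exact hh)
          rw [if_neg this, if_neg hy]; ring
      rw [Finset.sum_congr rfl (fun y2 _ => this y2), Finset.sum_add_distrib, ← Finset.mul_sum,
        Finset.sum_ite_eq' Finset.univ (-y) (fun _ => s' * De B (-y)), hB0]
      simp
    rw [e1, e3]; ring
  rw [h2] at h1
  have hb1 := De_bound A y
  have hb2 := De_bound B (-y)
  have hpZ : (2 : ℤ) ≤ p := by exact_mod_cast hp
  have hm0 : m = 0 := by
    by_contra hne
    rcases lt_or_gt_of_ne hne with h | h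
    · have : (p : ℤ) * m ≤ -2 := by nlinarith
      rcases hs' with rfl | rfl <;> linarith
    · have : 2 ≤ (p : ℤ) * m := by nlinarith
      rcases hs' with rfl | rfl <;> linarith
  rw [hm0] at h1
  rcases hs' with rfl | rfl <;> linarith

theorem ind_tr (D : Finset (ZMod q × K)) (y0 : K) (x : ZMod q) (y : K) :
    ind (tr D (0, -y0)) x y = ind D x (y + y0) := by
  unfold ind
  have : ((x, y) ∈ tr D (0, -y0)) ↔ ((x, y + y0) ∈ D) := by
    rw [mem_tr]
    simp
  simp only [this]

theorem QInv_tr {D : Finset (ZMod q × K)} (hD : QInv D) (y0 : K) : QInv (tr D (0, -y0)) := by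
  intro u hu hs x y
  rw [ind_tr, ind_tr]
  exact hD u hu hs x (y + y0)

theorem ind_image {p : ℕ} (hinj : Function.Injective (fun z : ZMod q × K => p • z))
    (D : Finset (ZMod q × K)) (x : ZMod q) (y : K) :
    ind (D.image (fun z => p • z)) (p * x) (p • y) = ind D x y := by
  unfold ind
  have : (((p : ZMod q) * x, p • y) ∈ D.image (fun z => p • z)) ↔ ((x, y) ∈ D) := by
    have e : ((p : ZMod q) * x, p • y) = p • (x, y) := by
      rw [Prod.smul_mk, nsmul_eq_mul]
    rw [e, Finset.mem_image]
    constructor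
    · rintro ⟨z, hz, hzz⟩
      have := hinj hzz
      rwa [← this]
    · intro h; exact ⟨(x, y), h, rfl⟩
  simp only [this]

theorem ext_of_ind {A B : Finset (ZMod q × K)} (h : ∀ x y, ind A x y = ind B x y) : A = B := by
  ext ⟨x, y⟩
  have := h x y
  unfold ind at this
  by_cases h1 : (x, y) ∈ A <;> by_cases h2 : (x, y) ∈ B
  · exact ⟨fun _ => h2, fun _ => h1⟩
  · rw [if_pos h1, if_neg h2] at this; exact absurd this one_ne_zero
  · rw [if_neg h1, if_pos h2] at this; exact absurd this zero_ne_one
  · exact ⟨fun h => absurd h h1, fun h => absurd h h2⟩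

/-- structure of `p • D` -/
theorem image_struct (h4 : q % 4 = 3) {D : Finset (ZMod q × K)} (hD : QInv D) {p : ℕ}
    (hpq : (p : ZMod q) ≠ 0) (hinj : Function.Injective (fun z : ZMod q × K => p • z)) :
    QInv (D.image (fun z => p • z)) ∧
    (∀ y, ind (D.image (fun z => p • z)) 0 (p • y) = ind D 0 y) ∧
    (∀ y, ee (D.image (fun z => p • z)) (p • y) = ee D y) ∧
    (∀ y, De (D.image (fun z => p • z)) (p • y) = quadraticChar (ZMod q) ((p : ZMod q)⁻¹) * De D y) := by
  have hsurj : Function.Surjective (fun z : ZMod q × K => p • z) :=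
    Finite.injective_iff_surjective.mp hinj
  have hval : ∀ x y, ind (D.image (fun z => p • z)) x (p • y) = ind D ((p : ZMod q)⁻¹ * x) y := by
    intro x y
    have := ind_image hinj D ((p : ZMod q)⁻¹ * x) y
    rw [mul_inv_cancel_left₀ hpq] at this
    exact this
  have hpi : (p : ZMod q)⁻¹ ≠ 0 := inv_ne_zero hpq
  refine ⟨?_, ?_, ?_, ?_⟩
  · intro u hu hs x y'
    obtain ⟨⟨x0, y⟩, hy⟩ := hsurj (0, y')
    have hy2 : p • y = y' := congrArg Prod.snd hy
    rw [← hy2, hval, hval]
    have : (p : ZMod q)⁻¹ * (u * x) = u * ((p : ZMod q)⁻¹ * x) := by ring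
    rw [this]
    exact hD u hu hs _ _
  · intro y
    rw [hval, mul_zero]
  · intro y
    have e1 : 2 * ee (D.image (fun z => p • z)) (p • y) = 2 * ee D y := by
      unfold ee
      rw [hval, hval, mul_add, ind_formula h4 hD, ind_formula h4 hD, mul_one, if_neg hpi,
        mul_neg_one, if_neg (neg_ne_zero.mpr hpi), ← neg_one_mul ((p : ZMod q)⁻¹), map_mul,
        chi_neg_one h4]
      unfold ee
      ring
    linarith
  · intro y
    have e1 : 2 * De (D.image (fun z => p • z)) (p • y)
        = 2 * (quadraticChar (ZMod q) ((p : ZMod q)⁻¹) * De D y) := by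
      unfold De
      rw [hval, hval, mul_sub, ind_formula h4 hD, ind_formula h4 hD, mul_one, if_neg hpi,
        mul_neg_one, if_neg (neg_ne_zero.mpr hpi), ← neg_one_mul ((p : ZMod q)⁻¹), map_mul,
        chi_neg_one h4]
      unfold De
      ring
    linarith

end

end Pool.Agent.MultConj
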