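import Pool.Agent.Lib.MP_5e14a0_co.Key

set_option autoImplicit false
set_option linter.unusedSectionVars false
set_option linter.style.haveILetI false

namespace Pool.Agent.MultConj

section
variable {q : ℕ} [Fact q.Prime] {K : Type} [AddCommGroup K] [Fintype K] [DecidableEq K]

/-- the final argument, for a normalised set -/
theorem main_norm (h4 : q % 4 = 3) {D : Finset (ZMod q × K)} (hD : QInv D) {lam : ℕ}
    (hds : IsDS D lam) (hle : lam ≤ D.card)
    (s s' : ℤ) (hs' : s' = 1 ∨ s' = -1) (hal : ∀ y, al D y = s + if y = 0 then s' else 0)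
    (r r' : ℤ) (hee : ∀ y, ee D y = r + if y = 0 then r' else 0)
    (h0 : s * ∑ y, De D y = 0)
    (p : ℕ) (hp : p.Prime) (hpn : p ∣ D.card - lam)
    (hcop : Nat.Coprime p (Fintype.card (ZMod q × K))) :
    D.image (fun z => p • z) = D := by
  have hinj : Function.Injective (fun z : ZMod q × K => p • z) := smul_inj hcop
  have hpq : (p : ZMod q) ≠ 0 := by
    intro h
    rw [ZMod.natCast_eq_zero_iff] at h
    have hqc : q ∣ Fintype.card (ZMod q × K) := by
      rw [Fintype.card_prod, ZMod.card]; exact dvd_mul_right _ _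
    have h1 : q ∣ 1 := by
      have := Nat.dvd_gcd h hqc
      rwa [hcop] at this
    exact (Fact.out : q.Prime).one_lt.ne' (Nat.dvd_one.mp h1)
  obtain ⟨hQ, hi0, hie, hiD⟩ := image_struct h4 hD hpq hinj
  set D' := D.image (fun z => p • z) with hD'
  have hKinj : Function.Injective (fun y : K => p • y) := by
    intro y y' h
    have : (fun z : ZMod q × K => p • z) (0, y) = (fun z : ZMod q × K => p • z) (0, y') := by
      simp only [Prod.smul_mk]
      simp only at h
      rw [h]
    exact (Prod.mk.inj (hinj this)).2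
  have hKsurj : Function.Surjective (fun y : K => p • y) :=
    Finite.injective_iff_surjective.mp hKinj
  have hzero : ∀ y : K, p • y = 0 ↔ y = 0 := by
    intro y
    constructor
    · intro h
      apply hKinj
      simp only [smul_zero]
      exact h
    · rintro rfl; simp
  have hee' : ∀ y, ee D' y = r + if y = 0 then r' else 0 := by
    intro y'
    obtain ⟨y, rfl⟩ := hKsurj y'
    simp only [hzero]
    rw [hie, hee]
  have hal' : ∀ y, al D' y = s + if y = 0 then s' else 0 := by
    intro y'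
    obtain ⟨y, rfl⟩ := hKsurj y'
    simp only [hzero]
    have e1 : al D' (p • y) = 2 * ind D' 0 (p • y) - ee D' (p • y) := by unfold al ee; ring
    have e2 : al D y = 2 * ind D 0 y - ee D y := by unfold al ee; ring
    rw [e1, hi0, hie, ← e2, hal]
  have h0' : s * ∑ y, De D' y = 0 := by
    have e1 : ∑ y, De D' y = quadraticChar (ZMod q) ((p : ZMod q)⁻¹) * ∑ y, De D y := by
      rw [Finset.mul_sum]
      exact (Fintype.sum_bijective (fun y : K => p • y) ⟨hKinj, hKsurj⟩ _ _
        (fun y => (hiD y).symm)).symm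
    rw [e1]
    have : s * (quadraticChar (ZMod q) ((p : ZMod q)⁻¹) * ∑ y, De D y)
        = quadraticChar (ZMod q) ((p : ZMod q)⁻¹) * (s * ∑ y, De D y) := by ring
    rw [this, h0, mul_zero]
  -- symmetry of D
  have hne1 : ∀ y : K, ((1 : ZMod q), y) ≠ 0 := by
    intro y h
    exact one_ne_zero (Prod.mk.inj h).1
  have hne2 : ∀ y : K, ((-1 : ZMod q), y) ≠ 0 := by
    intro y h
    exact (neg_ne_zero.mpr one_ne_zero) (Prod.mk.inj h).1
  have hsym : ∀ y, De D y = De D (-y) := by
    intro y
    apply key h4 hD hD s s' hs' hal hal h0 h0 y 2 le_rfl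
    rw [hds _ (hne1 y), hds _ (hne2 y), sub_self]
    exact dvd_zero _
  have hkey : ∀ y, De D' y = De D (-y) := by
    intro y
    apply key h4 hQ hD s s' hs' hal' hal h0' h0 y p hp.two_le
    have hc : ∀ g, (p : ℤ) ∣ (Cnt D' D g : ℤ) - lam := by
      intro g
      have h1 := count_mod hds hle p 1 p 1 hp one_pos hcop (by rw [pow_one]; exact hpn)
        (fun x => by rw [pow_one]) hinj g
      have h2 : (((Cnt D' D g : ℤ) - lam : ℤ) : ZMod (p ^ 1)) = 0 := by
        push_cast
        rw [h1, sub_self]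
      rw [ZMod.intCast_zmod_eq_zero_iff_dvd] at h2
      simpa using h2
    have := dvd_sub (hc (1, y)) (hc (-1, y))
    simpa using this
  apply ext_of_ind
  intro x y
  have e1 := ind_formula h4 hQ x y
  have e2 := ind_formula h4 hD x y
  rw [hal', hee', hkey, ← hsym] at e1
  rw [hal, hee] at e2
  linarith

theorem De_sum (h4 : q % 4 = 3) {D : Finset (ZMod q × K)} (hD : QInv D) {lam : ℕ}
    (hds : IsDS D lam) (h7 : 7 ≤ q)
    (hk : 2 * D.card + 1 = q * Fintype.card K) (hlam : D.card = 2 * lam + 1)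
    (h : (Fintype.card K = q + 2 ∧ ∑ y, ind D 0 y = 1 ∧ ∑ y, ee D y = q + 3) ∨
      (Fintype.card K + 2 = q ∧ ∑ y, ind D 0 y = (q : ℤ) - 2 ∧ ∑ y, ee D y = (q : ℤ) - 3)) :
    ∑ y, De D y = 0 := by
  have h1 := four_s0 h4 hD
  rw [conv_s0_zero hds] at h1
  have hqZ : (7 : ℤ) ≤ q := by exact_mod_cast h7
  have hkZ : 2 * (D.card : ℤ) + 1 = q * Fintype.card K := by exact_mod_cast hk
  have hlZ : (D.card : ℤ) = 2 * lam + 1 := by exact_mod_cast hlam
  have hq1 : (q - 1 : ℤ) ≠ 0 := by linarith
  have hgoal : ((q : ℤ) - 1) * (∑ y, De D y) ^ 2 = 0 := by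
    have h2 : (lam : ℤ) * 4 = q * Fintype.card K - 3 := by linarith
    have h3 : (D.card : ℤ) * 2 = q * Fintype.card K - 1 := by linarith
    rcases h with ⟨hw, hA, hS⟩ | ⟨hw, hA, hS⟩
    · have hwZ : (Fintype.card K : ℤ) = q + 2 := by exact_mod_cast hw
      rw [hA, hS, hwZ] at h1
      rw [hwZ] at h2 h3
      linear_combination -h1 + 2 * h3 + (q + 1) * h2
    · have hwZ : (Fintype.card K : ℤ) = q - 2 := by
        have : (Fintype.card K : ℤ) + 2 = q := by exact_mod_cast hw
        linarith
      rw [hA, hS, hwZ] at h1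
      rw [hwZ] at h2 h3
      linear_combination -h1 + 2 * h3 + (q - 3) * h2
  rcases mul_eq_zero.mp hgoal with h | h
  · exact absurd h hq1
  · exact pow_eq_zero_iff (two_ne_zero) |>.mp h

theorem main_prod (h4 : q % 4 = 3) (h7 : 7 ≤ q) {D : Finset (ZMod q × K)} (hD : QInv D) {lam : ℕ}
    (hds : IsDS D lam) (hw : Fintype.card K + 5 < 2 * q)
    (hk : 2 * D.card + 1 = q * Fintype.card K) :
    (Fintype.card K = 1 ∨ Fintype.card K + 2 = q ∨ Fintype.card K = q + 2) ∧
    ∀ p : ℕ, p.Prime → p ∣ D.card - lam →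
      ∃ g, D.image (fun z => p • z) = tr D g := by
  have hk0 : 0 < D.card := by
    rcases Nat.eq_zero_or_pos D.card with h | h
    · rw [h] at hk
      have : q ∣ 1 := ⟨Fintype.card K, by omega⟩
      have := Nat.le_of_dvd one_pos this
      omega
    · exact h
  have hlam := lam_eq hds hk hk0
  have hcop : ∀ p : ℕ, p.Prime → p ∣ D.card - lam → Nat.Coprime p (Fintype.card (ZMod q × K)) := by
    intro p hp hpn
    rw [Fintype.card_prod, ZMod.card, ← hk, Nat.Prime.coprime_iff_not_dvd hp]
    intro hc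
    obtain ⟨m, hm⟩ := hpn
    have h1 : 4 * (D.card - lam) = 2 * D.card + 1 + 1 := by omega
    have h2 : p ∣ 2 * D.card + 1 + 1 := by
      rw [← h1, hm]
      exact ⟨4 * m, by ring⟩
    have h3 : p ∣ 1 := (Nat.dvd_add_right hc).mp h2
    exact hp.one_lt.ne' (Nat.dvd_one.mp h3)
  have hstr := struct h4 h7 hD hds hw hk
  have hfin : ∀ y0 : K, ∀ p : ℕ, Nat.Coprime p (Fintype.card (ZMod q × K)) →
      (tr D (0, -y0)).image (fun z => p • z) = tr D (0, -y0) →
      ∃ g, D.image (fun z => p • z) = tr D g := by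
    intro y0 p _ h
    rw [image_tr] at h
    refine ⟨(0, -y0) + -(p • ((0 : ZMod q), -y0)), ?_⟩
    have h2 := congrArg (fun E => tr E (-(p • ((0 : ZMod q), -y0)))) h
    simp only [tr_tr, add_neg_cancel, tr_zero] at h2
    exact h2
  have hlZ : (D.card : ℤ) = 2 * lam + 1 := by exact_mod_cast hlam
  rcases hstr with ⟨hK, he⟩ | ⟨y0, ⟨hK, he, ha⟩ | ⟨hK, he, ha⟩⟩
  · refine ⟨Or.inl hK, ?_⟩
    intro p hp hpn
    apply hfin 0 p (hcop p hp hpn)
    have hsub : ∀ y : K, y = 0 := by
      haveI := Fintype.card_le_one_iff_subsingleton.mp hK.le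
      intro y; exact Subsingleton.elim _ _
    have hD1 : tr D ((0 : ZMod q), -(0 : K)) = D := by
      have : ((0 : ZMod q), -(0 : K)) = 0 := by rw [neg_zero]; rfl
      rw [this, tr_zero]
    rw [hD1]
    have halv : al D 0 = 1 ∨ al D 0 = -1 := by
      have e2 : al D 0 = 2 * ind D 0 0 - ee D 0 := by unfold al ee; ring
      rw [e2, he]
      rcases ind_01 D 0 (0 : K) with h | h <;> rw [h] <;> norm_num
    refine main_norm h4 hD hds (by omega) 0 (al D 0) halv ?_ 1 0 ?_ (by ring) p hp hpn
      (hcop p hp hpn)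
    · intro y; rw [hsub y, if_pos rfl, zero_add]
    · intro y; rw [he]; simp
  · refine ⟨Or.inr (Or.inr hK), ?_⟩
    intro p hp hpn
    apply hfin y0 p (hcop p hp hpn)
    have hA : ∑ y, ind D 0 y = 1 := by
      rw [Finset.sum_congr rfl (fun y _ => ha y), Finset.sum_ite_eq' Finset.univ y0 (fun _ => (1 : ℤ))]
      simp
    have hS : ∑ y, ee D y = q + 3 := by
      rw [Finset.sum_congr rfl (fun y _ => he y), Finset.sum_add_distrib,
        Finset.sum_ite_eq' Finset.univ y0 (fun _ => (1 : ℤ)), Finset.sum_const, Finset.card_univ,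
        nsmul_eq_mul, hK]
      simp
      ring
    have hDe := De_sum h4 hD hds h7 hk hlam (Or.inl ⟨hK, hA, hS⟩)
    have hDe1 : ∑ y, De (tr D (0, -y0)) y = 0 := by
      rw [← hDe]
      unfold De
      simp only [ind_tr]
      exact Fintype.sum_equiv (Equiv.addRight y0) _ _ (fun _ => rfl)
    have e2 : ∀ y, al D y = 2 * ind D 0 y - ee D y := by intro y; unfold al ee; ring
    refine main_norm h4 (QInv_tr hD y0) (ds_tr hds _) (by rw [tr_card]; omega) (-1) 1 (Or.inl rfl)
      ?_ 1 1 ?_ (by rw [hDe1]; ring) p hp (by rw [tr_card]; exact hpn) (hcop p hp hpn)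
    · intro y
      have e3 : al (tr D (0, -y0)) y = al D (y + y0) := by unfold al; simp only [ind_tr]
      rw [e3, e2, ha, he]
      by_cases h : y = 0
      · rw [h, zero_add, if_pos rfl, if_pos rfl]; ring
      · have : ¬ (y + y0 = y0) := by simpa using h
        rw [if_neg this, if_neg h]; ring
    · intro y
      have e3 : ee (tr D (0, -y0)) y = ee D (y + y0) := by unfold ee; simp only [ind_tr]
      rw [e3, he]
      by_cases h : y = 0
      · rw [h, zero_add, if_pos rfl, if_pos rfl]
      · have : ¬ (y + y0 = y0) := by simpa using h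
        rw [if_neg this, if_neg h]
  · refine ⟨Or.inr (Or.inl hK), ?_⟩
    intro p hp hpn
    apply hfin y0 p (hcop p hp hpn)
    have hKZ : (Fintype.card K : ℤ) = q - 2 := by
      have : (Fintype.card K : ℤ) + 2 = q := by exact_mod_cast hK
      linarith
    have hA : ∑ y, ind D 0 y = (q : ℤ) - 2 := by
      rw [Finset.sum_congr rfl (fun y _ => ha y), Finset.sum_const, Finset.card_univ, nsmul_eq_mul,
        hKZ]
      ring
    have hS : ∑ y, ee D y = (q : ℤ) - 3 := by
      rw [Finset.sum_congr rfl (fun y _ => he y), Finset.sum_sub_distrib,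
        Finset.sum_ite_eq' Finset.univ y0 (fun _ => (1 : ℤ)), Finset.sum_const, Finset.card_univ,
        nsmul_eq_mul, hKZ]
      simp
      ring
    have hDe := De_sum h4 hD hds h7 hk hlam (Or.inr ⟨hK, hA, hS⟩)
    have hDe1 : ∑ y, De (tr D (0, -y0)) y = 0 := by
      rw [← hDe]
      unfold De
      simp only [ind_tr]
      exact Fintype.sum_equiv (Equiv.addRight y0) _ _ (fun _ => rfl)
    have e2 : ∀ y, al D y = 2 * ind D 0 y - ee D y := by intro y; unfold al ee; ring
    refine main_norm h4 (QInv_tr hD y0) (ds_tr hds _) (by rw [tr_card]; omega) 1 1 (Or.inl rfl)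
      ?_ 1 (-1) ?_ (by rw [hDe1]; ring) p hp (by rw [tr_card]; exact hpn) (hcop p hp hpn)
    · intro y
      have e3 : al (tr D (0, -y0)) y = al D (y + y0) := by unfold al; simp only [ind_tr]
      rw [e3, e2, ha, he]
      by_cases h : y = 0
      · rw [h, zero_add, if_pos rfl, if_pos rfl]; ring
      · have : ¬ (y + y0 = y0) := by simpa using h
        rw [if_neg this, if_neg h]; ring
    · intro y
      have e3 : ee (tr D (0, -y0)) y = ee D (y + y0) := by unfold ee; simp only [ind_tr]
      rw [e3, he]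
      by_cases h : y = 0
      · rw [h, zero_add, if_pos rfl, if_pos rfl]; ring
      · have : ¬ (y + y0 = y0) := by simpa using h
        rw [if_neg this, if_neg h]; ring

end

end Pool.Agent.MultConj
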