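import Pool.Agent.Lib.MP_5e14a0_co.GR2

set_option autoImplicit false
set_option linter.unusedSectionVars false
set_option linter.style.haveILetI false

namespace Pool.Agent.MultConj

open AddMonoidAlgebra

section
variable {G : Type} [AddCommGroup G] [Fintype G] [DecidableEq G]

/-- number of representations of `g` as a difference `a - b` -/
def Cnt (A B : Finset G) (g : G) : ℕ := ((A ×ˢ B).filter (fun x => x.1 - x.2 = g)).card

/-- `D` is a difference set with index `lam` -/
def IsDS (D : Finset G) (lam : ℕ) : Prop := ∀ g : G, g ≠ 0 → Cnt D D g = lam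

theorem sum_Cnt (A B : Finset G) : ∑ g : G, Cnt A B g = A.card * B.card := by
  rw [← Finset.card_product]
  unfold Cnt
  rw [← Finset.card_eq_sum_card_fiberwise (fun x _ => Finset.mem_univ _)]

theorem Cnt_zero (D : Finset G) : Cnt D D 0 = D.card := by
  unfold Cnt
  rw [← Finset.diag_card D]
  congr 1
  ext ⟨a, b⟩
  simp only [Finset.mem_filter, Finset.mem_product, Finset.mem_diag, sub_eq_zero]
  constructor
  · rintro ⟨⟨h1, h2⟩, h3⟩; exact ⟨h1, h3⟩
  · rintro ⟨h1, h3⟩; exact ⟨⟨h1, h3 ▸ h1⟩, h3⟩

theorem ds_count {D : Finset G} {lam : ℕ} (hD : IsDS D lam) :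
    D.card * D.card + lam = D.card + lam * Fintype.card G := by
  have h := sum_Cnt D D
  rw [← Finset.add_sum_erase _ _ (Finset.mem_univ (0 : G)), Cnt_zero] at h
  have h2 : ∑ g ∈ Finset.univ.erase (0 : G), Cnt D D g = (Fintype.card G - 1) * lam := by
    rw [Finset.sum_congr rfl (fun g hg => hD g (Finset.ne_of_mem_erase hg)), Finset.sum_const,
      Finset.card_erase_of_mem (Finset.mem_univ _), Finset.card_univ, smul_eq_mul]
  have h3 : 0 < Fintype.card G := Fintype.card_pos
  obtain ⟨v, hv⟩ : ∃ v, Fintype.card G = v + 1 := ⟨Fintype.card G - 1, by omega⟩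
  rw [h2, hv] at h
  rw [hv]
  simp only [Nat.add_sub_cancel] at h
  nlinarith

variable (N : ℕ)

noncomputable def cs (A : Finset G) : AddMonoidAlgebra (ZMod N) G := ∑ d ∈ A, single d 1
noncomputable def csn (A : Finset G) : AddMonoidAlgebra (ZMod N) G := ∑ d ∈ A, single (-d) 1

theorem coeff_cs_mul (A B : Finset G) (g : G) :
    (cs N A * csn N B).coeff g = (Cnt A B g : ZMod N) := by
  unfold cs csn Cnt
  rw [Finset.sum_mul_sum, Finset.card_filter, Finset.sum_product]
  simp only [single_mul_single, coeff_sum, coeff_single, mul_one, Finsupp.finset_sum_apply,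
    Finsupp.single_apply, ← sub_eq_add_neg]
  push_cast
  rfl

theorem mul_all (U : AddMonoidAlgebra (ZMod N) G) :
    ∃ c : ZMod N, ∀ g, (U * cs N Finset.univ).coeff g = c := by
  induction U using AddMonoidAlgebra.induction_linear with
  | zero => exact ⟨0, fun g => by simp⟩
  | add x y hx hy =>
    obtain ⟨c, hc⟩ := hx
    obtain ⟨d, hd⟩ := hy
    exact ⟨c + d, fun g => by rw [add_mul, coeff_add, Finsupp.add_apply, hc, hd]⟩
  | single m r =>
    refine ⟨r, fun g => ?_⟩
    unfold cs
    rw [Finset.mul_sum]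
    simp only [single_mul_single, coeff_sum, coeff_single, mul_one, Finsupp.finset_sum_apply,
      Finsupp.single_apply]
    rw [Finset.sum_eq_single (g - m)]
    · simp
    · intro b _ hb
      rw [if_neg]
      intro h
      exact hb (by rw [← h]; abel)
    · intro h; exact absurd (Finset.mem_univ _) h

end

section
variable {G : Type} [AddCommGroup G] [Fintype G] [DecidableEq G]

theorem phi_iter_cs (N p j : ℕ) (D : Finset G) :
    (phi N p G)^[j] (cs N D) = ∑ d ∈ D, single (p ^ j • d) 1 := by
  induction j with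
  | zero => simp [cs]
  | succ j ih =>
    rw [Function.iterate_succ_apply', ih, map_sum]
    refine Finset.sum_congr rfl (fun d _ => ?_)
    rw [phi_single, pow_succ', mul_smul]

theorem count_mod {D : Finset G} {lam : ℕ} (hD : IsDS D lam) (hlam : lam ≤ D.card)
    (p a t j : ℕ) (hp : p.Prime) (ha : 0 < a) (hcop : Nat.Coprime p (Fintype.card G))
    (hpa : p ^ a ∣ D.card - lam) (ht : ∀ x : G, t • x = p ^ j • x)
    (hinj : Function.Injective (fun x : G => t • x)) (g : G) :
    (Cnt (D.image (fun x => t • x)) D g : ZMod (p ^ a)) = (lam : ZMod (p ^ a)) := by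
  haveI : Fact p.Prime := ⟨hp⟩
  obtain ⟨n, hn⟩ : ∃ n, D.card = lam + n := ⟨D.card - lam, by omega⟩
  have hnN : ((n : ℕ) : ZMod (p ^ a)) = 0 := by
    rw [ZMod.natCast_eq_zero_iff]
    have : D.card - lam = n := by omega
    rwa [this] at hpa
  have h1 : cs (p ^ a) (D.image (fun x => t • x)) = (phi (p ^ a) p G)^[j] (cs (p ^ a) D) := by
    rw [phi_iter_cs]
    unfold cs
    rw [Finset.sum_image (fun x _ y _ h => hinj h)]
    exact Finset.sum_congr rfl (fun d _ => by rw [ht])
  obtain ⟨U, hU⟩ := dvd_phi_iter p a ha hcop (cs (p ^ a) D) j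
  have h2 : cs (p ^ a) D * csn (p ^ a) D = (lam : ZMod (p ^ a)) • cs (p ^ a) Finset.univ := by
    ext g
    rw [coeff_cs_mul, coeff_smul_apply]
    have h3 : (cs (p ^ a) (Finset.univ : Finset G)).coeff g = 1 := by
      unfold cs
      rw [coeff_sum, Finsupp.finset_sum_apply]
      simp [Finsupp.single_apply]
    rw [h3, smul_eq_mul, mul_one]
    by_cases hg : g = 0
    · rw [hg, Cnt_zero, hn]; push_cast; rw [hnN, add_zero]
    · rw [hD g hg]
  obtain ⟨c, hc⟩ := mul_all (p ^ a) U
  have h4 : ∀ g : G, (Cnt (D.image (fun x => t • x)) D g : ZMod (p ^ a)) = lam * c := by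
    intro g
    rw [← coeff_cs_mul, h1, hU, mul_comm (cs (p ^ a) D) U, mul_assoc, h2, mul_smul_comm,
      coeff_smul_apply, hc, smul_eq_mul]
  have h5 : ((D.card : ℕ) : ZMod (p ^ a)) * D.card = (Fintype.card G : ZMod (p ^ a)) * (lam * c) := by
    have h6 := sum_Cnt (D.image (fun x => t • x)) D
    rw [Finset.card_image_of_injective _ hinj] at h6
    have h7 := congrArg (fun x : ℕ => (x : ZMod (p ^ a))) h6
    simp only [Nat.cast_sum, Nat.cast_mul] at h7
    rw [← h7, Finset.sum_congr rfl (fun g _ => h4 g), Finset.sum_const, Finset.card_univ,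
      nsmul_eq_mul]
  have h8 : ((D.card : ℕ) : ZMod (p ^ a)) * D.card = (Fintype.card G : ZMod (p ^ a)) * lam := by
    have h9 := ds_count hD
    have h10 := congrArg (fun x : ℕ => (x : ZMod (p ^ a))) h9
    simp only [Nat.cast_add, Nat.cast_mul] at h10
    have h11 : ((D.card : ℕ) : ZMod (p ^ a)) = lam := by rw [hn]; push_cast; rw [hnN, add_zero]
    rw [h11] at h10 ⊢
    have h12 : (lam : ZMod (p ^ a)) * lam = lam * Fintype.card G := by
      have := h10
      linear_combination this
    rw [h12, mul_comm]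
  have hunit : IsUnit ((Fintype.card G : ℕ) : ZMod (p ^ a)) :=
    (ZMod.isUnit_iff_coprime _ _).mpr (Nat.Coprime.pow_right a hcop.symm)
  rw [h4 g]
  exact hunit.mul_left_cancel (h5.symm.trans h8)

end

end Pool.Agent.MultConj
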