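import Pool.Agent.Lib.MP_5e14a0_co.Mult

set_option autoImplicit false
set_option linter.unusedSectionVars false
set_option linter.style.haveILetI false

namespace Pool.Agent.MultConj

section
variable {G : Type} [AddCommGroup G] [Fintype G] [DecidableEq G]

theorem Cnt_eq_sum (A B : Finset G) (g : G) :
    (Cnt A B g : ℤ) = ∑ a ∈ A, ∑ b ∈ B, if a - b = g then (1 : ℤ) else 0 := by
  unfold Cnt
  rw [Finset.card_filter, Finset.sum_product]
  push_cast
  rfl

theorem corr (A B C E : Finset G) :
    ∑ g : G, (Cnt A B g : ℤ) * Cnt C E g =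
      ∑ a ∈ A, ∑ b ∈ B, ∑ c ∈ C, ∑ e ∈ E, if a - b = c - e then (1 : ℤ) else 0 := by
  have h : ∀ g : G, (Cnt A B g : ℤ) * Cnt C E g =
      ∑ a ∈ A, ∑ b ∈ B, ∑ c ∈ C, ∑ e ∈ E,
        (if a - b = g then (1 : ℤ) else 0) * (if c - e = g then (1 : ℤ) else 0) := by
    intro g
    rw [Cnt_eq_sum, Cnt_eq_sum, Finset.sum_mul]
    refine Finset.sum_congr rfl (fun a _ => ?_)
    rw [Finset.sum_mul]
    refine Finset.sum_congr rfl (fun b _ => ?_)
    rw [Finset.mul_sum]
    refine Finset.sum_congr rfl (fun c _ => ?_)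
    rw [Finset.mul_sum]
  rw [Finset.sum_congr rfl (fun g _ => h g)]
  rw [Finset.sum_comm]
  refine Finset.sum_congr rfl (fun a _ => ?_)
  rw [Finset.sum_comm]
  refine Finset.sum_congr rfl (fun b _ => ?_)
  rw [Finset.sum_comm]
  refine Finset.sum_congr rfl (fun c _ => ?_)
  rw [Finset.sum_comm]
  refine Finset.sum_congr rfl (fun e _ => ?_)
  rw [Finset.sum_eq_single (a - b)]
  · by_cases hh : c - e = a - b
    · rw [if_pos rfl, if_pos hh, if_pos hh.symm]; ring
    · rw [if_pos rfl, if_neg hh, if_neg (fun h' => hh h'.symm)]; ring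
  · intro g _ hg
    rw [if_neg (fun h' => hg h'.symm), zero_mul]
  · intro hh; exact absurd (Finset.mem_univ _) hh

theorem corr_swap (A B : Finset G) :
    ∑ g : G, (Cnt A B g : ℤ) * Cnt A B g = ∑ g : G, (Cnt A A g : ℤ) * Cnt B B g := by
  rw [corr, corr]
  refine Finset.sum_congr rfl (fun a _ => ?_)
  rw [Finset.sum_comm]
  refine Finset.sum_congr rfl (fun c _ => ?_)
  refine Finset.sum_congr rfl (fun b _ => ?_)
  refine Finset.sum_congr rfl (fun e _ => ?_)
  congr 1
  apply propext
  constructor
  · intro h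
    have : a - c = (a - b) - c + b := by abel
    rw [this, h]; abel
  · intro h
    have : a - b = (a - c) + c - b := by abel
    rw [this, h]; abel

theorem Cnt_image {t : ℕ} (hinj : Function.Injective (fun x : G => t • x)) (D : Finset G) (g : G) :
    Cnt (D.image (fun x => t • x)) (D.image (fun x => t • x)) (t • g) = Cnt D D g := by
  have h : (Cnt (D.image (fun x => t • x)) (D.image (fun x => t • x)) (t • g) : ℤ)
      = (Cnt D D g : ℤ) := by
    rw [Cnt_eq_sum, Cnt_eq_sum, Finset.sum_image (fun x _ y _ h => hinj h)]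
    refine Finset.sum_congr rfl (fun a _ => ?_)
    rw [Finset.sum_image (fun x _ y _ h => hinj h)]
    refine Finset.sum_congr rfl (fun b _ => ?_)
    congr 1
    apply propext
    rw [← smul_sub]
    exact ⟨fun h => hinj h, fun h => by rw [h]⟩
  exact_mod_cast h

theorem ds_image {t lam : ℕ} (hinj : Function.Injective (fun x : G => t • x)) {D : Finset G}
    (hD : IsDS D lam) : IsDS (D.image (fun x => t • x)) lam := by
  intro g hg
  obtain ⟨h, rfl⟩ := (Finite.injective_iff_surjective.mp hinj) g
  simp only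
  rw [Cnt_image hinj]
  apply hD
  rintro rfl
  exact hg (by simp)

theorem int_sum_one {f : G → ℤ} (h1 : ∑ g, f g = 1) (h2 : ∑ g, f g * f g = 1) :
    ∃ g, f g = 1 := by
  have h3 : ∃ g, f g ≠ 0 := by
    by_contra hc
    push Not at hc
    rw [Finset.sum_congr rfl (fun g _ => hc g)] at h1
    simp at h1
  obtain ⟨g, hg⟩ := h3
  have h4 : f g * f g ≤ 1 := by
    rw [← h2]
    exact Finset.single_le_sum (f := fun g => f g * f g) (fun x _ => mul_self_nonneg (f x))
      (Finset.mem_univ g)
  have h5 : ∑ x ∈ Finset.univ.erase g, f x * f x = 1 - f g * f g := by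
    rw [← h2, ← Finset.add_sum_erase _ _ (Finset.mem_univ g)]; ring
  have h6 : f g * f g = 1 := by
    have : 0 < f g * f g := lt_of_le_of_ne (mul_self_nonneg _) (fun h => hg (mul_self_eq_zero.mp h.symm))
    omega
  rw [h6, sub_self, Finset.sum_eq_zero_iff_of_nonneg (fun x _ => mul_self_nonneg (f x))] at h5
  have h7 : ∑ x ∈ Finset.univ.erase g, f x = 0 := by
    apply Finset.sum_eq_zero
    intro x hx
    exact mul_self_eq_zero.mp (h5 x hx)
  rw [← Finset.add_sum_erase _ _ (Finset.mem_univ g), h7, add_zero] at h1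
  exact ⟨g, h1⟩

/-- the multiplier theorem with `n₁ = n` -/
theorem multiplier {D : Finset G} {lam : ℕ} (hD : IsDS D lam) (hlam : lam < D.card)
    (t : ℕ) (hcop : Nat.Coprime (D.card - lam) (Fintype.card G))
    (ht : ∀ p : ℕ, p.Prime → p ∣ D.card - lam → ∃ j, ∀ x : G, t • x = p ^ j • x)
    (hinj : Function.Injective (fun x : G => t • x)) :
    ∃ g : G, D.image (fun x => t • x) = D.image (fun x => x + g) := by
  obtain ⟨n, hn⟩ : ∃ n, D.card = lam + n := ⟨D.card - lam, by omega⟩
  have hn0 : 0 < n := by omega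
  have hn' : D.card - lam = n := by omega
  rw [hn'] at ht hcop
  set Dt := D.image (fun x => t • x) with hDt
  have hcard : Dt.card = D.card := Finset.card_image_of_injective _ hinj
  -- divisibility
  have hdiv : ∀ g : G, (n : ℤ) ∣ (Cnt Dt D g : ℤ) - lam := by
    intro g
    rw [← Int.dvd_natAbs, Int.natCast_dvd_natCast, Nat.dvd_iff_prime_pow_dvd_dvd]
    intro p a hp hpa
    rcases Nat.eq_zero_or_pos a with rfl | ha
    · simp
    · have hpn : p ∣ n := (dvd_pow_self p (by omega)).trans hpa
      obtain ⟨j, hj⟩ := ht p hp hpn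
      have h1 := count_mod hD hlam.le p a t j hp ha
        (Nat.Coprime.coprime_dvd_left hpn hcop) (by rw [hn']; exact hpa) hj hinj g
      have h2 : (((Cnt Dt D g : ℤ) - lam : ℤ) : ZMod (p ^ a)) = 0 := by
        push_cast
        rw [h1, sub_self]
      rw [ZMod.intCast_zmod_eq_zero_iff_dvd] at h2
      exact Int.natCast_dvd.mp h2
  choose E hE using hdiv
  have hv := ds_count hD
  have hvZ : (D.card : ℤ) * D.card + lam = D.card + lam * Fintype.card G := by exact_mod_cast hv
  have hnZ : (D.card : ℤ) = lam + n := by exact_mod_cast hn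
  have hs1 : ∑ g, E g = 1 := by
    have h1 : ∑ g : G, ((Cnt Dt D g : ℤ) - lam) = n * ∑ g, E g := by
      rw [Finset.mul_sum]; exact Finset.sum_congr rfl (fun g _ => hE g)
    rw [Finset.sum_sub_distrib, Finset.sum_const, Finset.card_univ, nsmul_eq_mul] at h1
    have h2 : ∑ g : G, (Cnt Dt D g : ℤ) = D.card * D.card := by
      have := sum_Cnt Dt D
      rw [hcard] at this
      exact_mod_cast this
    rw [h2] at h1
    have h3 : (n : ℤ) * 1 = n * ∑ g, E g := by rw [← h1]; linarith
    have hn0' : (n : ℤ) ≠ 0 := by exact_mod_cast hn0.ne'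
    exact (mul_left_cancel₀ hn0' h3).symm
  have hs2 : ∑ g, E g * E g = 1 := by
    have h1 : ∑ g : G, ((Cnt Dt D g : ℤ) - lam) * ((Cnt Dt D g : ℤ) - lam)
        = n * n * ∑ g, E g * E g := by
      rw [Finset.mul_sum]
      exact Finset.sum_congr rfl (fun g _ => by rw [hE g]; ring)
    have h2 : ∑ g : G, ((Cnt Dt D g : ℤ) - lam) * ((Cnt Dt D g : ℤ) - lam)
        = ∑ g : G, (Cnt Dt D g : ℤ) * Cnt Dt D g - 2 * lam * ∑ g : G, (Cnt Dt D g : ℤ)
          + Fintype.card G * (lam * lam) := by
      rw [Finset.mul_sum, ← Finset.sum_sub_distrib]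
      have : (Fintype.card G : ℤ) * (lam * lam) = ∑ g : G, (lam : ℤ) * lam := by
        rw [Finset.sum_const, Finset.card_univ, nsmul_eq_mul]
      rw [this, ← Finset.sum_add_distrib]
      exact Finset.sum_congr rfl (fun g _ => by ring)
    have h3 : ∑ g : G, (Cnt Dt D g : ℤ) * Cnt Dt D g
        = D.card * D.card + (Fintype.card G - 1) * (lam * lam) := by
      rw [corr_swap, ← Finset.add_sum_erase _ _ (Finset.mem_univ (0 : G)), Cnt_zero, Cnt_zero, hcard]
      have hds := ds_image hinj hD
      rw [Finset.sum_congr rfl (fun g hg => by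
        rw [hds g (Finset.ne_of_mem_erase hg), hD g (Finset.ne_of_mem_erase hg)]),
        Finset.sum_const, Finset.card_erase_of_mem (Finset.mem_univ _), Finset.card_univ,
        nsmul_eq_mul]
      have : 0 < Fintype.card G := Fintype.card_pos
      push_cast [Nat.cast_sub this]
      ring
    have h4 : ∑ g : G, (Cnt Dt D g : ℤ) = D.card * D.card := by
      have := sum_Cnt Dt D
      rw [hcard] at this
      exact_mod_cast this
    rw [h2, h3, h4] at h1
    have h5 : (n : ℤ) * n * 1 = n * n * ∑ g, E g * E g := by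
      rw [← h1]
      have h6 : (lam : ℤ) * Fintype.card G = D.card * D.card + lam - D.card := by linarith
      have h7 : (Fintype.card G - 1 : ℤ) * (lam * lam) = (lam * Fintype.card G) * lam - lam * lam := by
        ring
      have h8 : (Fintype.card G : ℤ) * (lam * lam) = (lam * Fintype.card G) * lam := by ring
      rw [h7, h8, h6, hnZ]; ring
    have hn0' : (n : ℤ) * n ≠ 0 := by positivity
    exact (mul_left_cancel₀ hn0' h5).symm
  obtain ⟨g, hg⟩ := int_sum_one hs1 hs2
  have hfull : Cnt Dt D g = D.card := by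
    have h1 := hE g
    rw [hg, mul_one] at h1
    have : (Cnt Dt D g : ℤ) = D.card := by rw [hnZ]; linarith
    exact_mod_cast this
  refine ⟨g, ?_⟩
  have hsub : Dt ⊆ D.image (fun x => x + g) := by
    -- the projection of the filter to the first coordinate
    have h1 : ((Dt ×ˢ D).filter (fun x => x.1 - x.2 = g)).image Prod.fst = Dt := by
      apply Finset.eq_of_subset_of_card_le
      · intro x hx
        rw [Finset.mem_image] at hx
        obtain ⟨y, hy, rfl⟩ := hx
        exact (Finset.mem_product.mp (Finset.mem_filter.mp hy).1).1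
      · have hinj2 : Set.InjOn Prod.fst
            (((Dt ×ˢ D).filter (fun x => x.1 - x.2 = g) : Finset (G × G)) : Set (G × G)) := by
          rintro ⟨a, b⟩ hx ⟨c, e⟩ hy hxy
          simp only [Finset.coe_filter, Set.mem_setOf_eq] at hx hy hxy
          have : b = e := by
            have h3 : a - b = c - e := hx.2.trans hy.2.symm
            rw [hxy] at h3
            exact sub_right_injective h3
          rw [hxy, this]
        have h4 := Finset.card_image_of_injOn hinj2
        rw [h4, hcard]
        exact hfull.ge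
    intro x hx
    rw [← h1, Finset.mem_image] at hx
    obtain ⟨⟨a, b⟩, hy, rfl⟩ := hx
    rw [Finset.mem_filter, Finset.mem_product] at hy
    rw [Finset.mem_image]
    exact ⟨b, hy.1.2, by rw [← hy.2]; simp⟩
  apply Finset.eq_of_subset_of_card_le hsub
  rw [hcard, Finset.card_image_of_injective _ (add_left_injective g)]

end

end Pool.Agent.MultConj
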