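import Pool.Agent.Lib.MP_5e14a0_co.Mult2

set_option autoImplicit false
set_option linter.unusedSectionVars false
set_option linter.style.haveILetI false

namespace Pool.Agent.MultConj

section
variable {G : Type} [AddCommGroup G] [Fintype G] [DecidableEq G]

theorem smul_inj {t : ℕ} (h : Nat.Coprime t (Fintype.card G)) :
    Function.Injective (fun g : G => t • g) := by
  intro x y hxy
  have h2 : t • (x - y) = 0 := by
    simp only at hxy
    rw [smul_sub, hxy, sub_self]
  have h3 : addOrderOf (x - y) ∣ t := addOrderOf_dvd_of_nsmul_eq_zero h2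
  have h4 : addOrderOf (x - y) ∣ Fintype.card G := addOrderOf_dvd_card
  have h5 : addOrderOf (x - y) ∣ 1 := by
    have := Nat.dvd_gcd h3 h4
    rwa [h] at this
  exact sub_eq_zero.mp (AddMonoid.addOrderOf_eq_one_iff.mp (Nat.dvd_one.mp h5))

theorem smul_surj {t : ℕ} (h : Nat.Coprime t (Fintype.card G)) :
    Function.Surjective (fun g : G => t • g) :=
  Finite.injective_iff_surjective.mp (smul_inj h)

/-- translation -/
def tr (D : Finset G) (c : G) : Finset G := D.image (fun x => x + c)

theorem tr_card (D : Finset G) (c : G) : (tr D c).card = D.card :=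
  Finset.card_image_of_injective _ (add_left_injective c)

theorem tr_tr (D : Finset G) (c d : G) : tr (tr D c) d = tr D (c + d) := by
  unfold tr
  rw [Finset.image_image]
  congr 1
  funext x
  simp only [Function.comp]
  abel

theorem tr_zero (D : Finset G) : tr D 0 = D := by
  unfold tr
  simp

theorem mem_tr {D : Finset G} {c x : G} : x ∈ tr D c ↔ x - c ∈ D := by
  unfold tr
  rw [Finset.mem_image]
  constructor
  · rintro ⟨y, hy, rfl⟩; simpa using hy
  · intro h; exact ⟨x - c, h, by simp⟩

theorem sum_tr (D : Finset G) (c : G) : ∑ x ∈ tr D c, x = ∑ x ∈ D, x + D.card • c := by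
  unfold tr
  rw [Finset.sum_image (fun x _ y _ h => add_left_injective c h), Finset.sum_add_distrib,
    Finset.sum_const]

theorem Cnt_tr (A B : Finset G) (c g : G) : Cnt (tr A c) (tr B c) g = Cnt A B g := by
  have h : (Cnt (tr A c) (tr B c) g : ℤ) = (Cnt A B g : ℤ) := by
    rw [Cnt_eq_sum, Cnt_eq_sum]
    unfold tr
    rw [Finset.sum_image (fun x _ y _ h => add_left_injective c h)]
    refine Finset.sum_congr rfl (fun a _ => ?_)
    rw [Finset.sum_image (fun x _ y _ h => add_left_injective c h)]
    refine Finset.sum_congr rfl (fun b _ => ?_)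
    rw [add_sub_add_right_eq_sub]
  exact_mod_cast h

theorem ds_tr {D : Finset G} {lam : ℕ} (hD : IsDS D lam) (c : G) : IsDS (tr D c) lam := by
  intro g hg
  rw [Cnt_tr]
  exact hD g hg

theorem image_tr (t : ℕ) (D : Finset G) (c : G) :
    (tr D c).image (fun x => t • x) = tr (D.image (fun x => t • x)) (t • c) := by
  unfold tr
  rw [Finset.image_image, Finset.image_image]
  congr 1
  funext x
  simp only [Function.comp, smul_add]

/-- there is a translate with zero sum -/
theorem exists_zero_sum (D : Finset G) (h : Nat.Coprime D.card (Fintype.card G)) :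
    ∃ c, ∑ x ∈ tr D c, x = 0 := by
  obtain ⟨c, hc⟩ := smul_surj h (-(∑ x ∈ D, x))
  exact ⟨c, by rw [sum_tr]; simp only at hc; rw [hc]; abel⟩

/-- a multiplier fixes the translate with zero sum -/
theorem fix_of_zero_sum (D : Finset G) (h : Nat.Coprime D.card (Fintype.card G))
    (h0 : ∑ x ∈ D, x = 0) (t : ℕ) (hinj : Function.Injective (fun x : G => t • x))
    (ht : ∃ g, D.image (fun x => t • x) = tr D g) : D.image (fun x => t • x) = D := by
  obtain ⟨g, hg⟩ := ht
  have h1 : ∑ x ∈ D.image (fun x => t • x), x = 0 := by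
    rw [Finset.sum_image (fun x _ y _ h => hinj h), ← Finset.smul_sum, h0, smul_zero]
  rw [hg, sum_tr, h0, zero_add] at h1
  have h2 : g = 0 := by
    apply smul_inj h
    simp only [smul_zero]
    exact h1
  rw [hg, h2, tr_zero]

theorem Cnt_eq_conv (A B : Finset G) (g : G) :
    (Cnt A B g : ℤ) = ∑ z : G, (if g + z ∈ A then (1 : ℤ) else 0) * (if z ∈ B then 1 else 0) := by
  rw [Cnt_eq_sum, Finset.sum_comm]
  have h1 : ∑ z : G, (if g + z ∈ A then (1 : ℤ) else 0) * (if z ∈ B then 1 else 0)
      = ∑ z ∈ B, (if g + z ∈ A then (1 : ℤ) else 0) := by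
    rw [← Finset.sum_filter_add_sum_filter_not Finset.univ (fun z => z ∈ B)]
    have h2 : ∑ x ∈ Finset.univ.filter (fun z => ¬ z ∈ B),
        (if g + x ∈ A then (1 : ℤ) else 0) * (if x ∈ B then 1 else 0) = 0 := by
      apply Finset.sum_eq_zero
      intro x hx
      rw [if_neg (Finset.mem_filter.mp hx).2, mul_zero]
    rw [h2, add_zero]
    have h3 : Finset.univ.filter (fun z => z ∈ B) = B := by ext; simp
    rw [h3]
    refine Finset.sum_congr rfl (fun z hz => ?_)
    rw [if_pos hz, mul_one]
  rw [h1]
  refine Finset.sum_congr rfl (fun z _ => ?_)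
  by_cases h : g + z ∈ A
  · rw [if_pos h, Finset.sum_eq_single (g + z)]
    · rw [if_pos (by abel)]
    · intro b _ hb
      rw [if_neg]
      intro h'
      exact hb (by rw [← h']; abel)
    · intro h'; exact absurd h h'
  · rw [if_neg h]
    apply Finset.sum_eq_zero
    intro b hb
    rw [if_neg]
    intro h'
    exact h (by rw [← h']; simpa using hb)

end

end Pool.Agent.MultConj
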