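import Pool.Agent.Lib.MP_5e14a0_co.Core

set_option autoImplicit false
set_option linter.unusedSectionVars false
set_option linter.style.haveILetI false

namespace Pool.Agent.MultConj

section
variable {q : ℕ} [Fact q.Prime] {K : Type} [AddCommGroup K] [Fintype K] [DecidableEq K]

def g0 (D : Finset (ZMod q × K)) (y : K) : ℤ := ∑ x : ZMod q, ind D x y
def s0 (D : Finset (ZMod q × K)) (x : ZMod q) : ℤ := ∑ y : K, ind D x y

theorem card_eq_sum (D : Finset (ZMod q × K)) : (D.card : ℤ) = ∑ y : K, g0 D y := by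
  have h : (D.card : ℤ) = ∑ z : ZMod q × K, if z ∈ D then (1 : ℤ) else 0 := by
    rw [Finset.sum_ite_mem, Finset.univ_inter, Finset.sum_const, nsmul_eq_mul, mul_one]
  rw [h, Fintype.sum_prod_type_right]
  rfl

theorem two_g0 (h4 : q % 4 = 3) {D : Finset (ZMod q × K)} (hD : QInv D) (y : K) :
    2 * g0 D y = 2 * ind D 0 y + (q - 1) * ee D y := by
  have hs0 : ∑ z : ZMod q, quadraticChar (ZMod q) z = 0 := quadraticChar_sum_zero (ringChar_ne_two h4)
  unfold g0
  rw [Finset.mul_sum, Finset.sum_congr rfl (fun x _ => ind_formula h4 hD x y),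
    Finset.sum_add_distrib, Finset.sum_add_distrib, ← Finset.sum_mul, ← Finset.sum_mul, hs0,
    Finset.sum_const, Finset.card_univ, ZMod.card]
  rw [Finset.sum_ite_eq' Finset.univ (0 : ZMod q) (fun _ => (1 : ℤ))]
  simp only [Finset.mem_univ, if_true, nsmul_eq_mul]
  unfold al ee
  ring

theorem conv_g0 (D : Finset (ZMod q × K)) (y : K) :
    ∑ y2 : K, g0 D (y + y2) * g0 D y2 = ∑ x : ZMod q, (Cnt D D (x, y) : ℤ) := by
  rw [Finset.sum_congr rfl (fun x _ => Cnt_conv_prod D D x y), Finset.sum_comm]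
  refine Finset.sum_congr rfl (fun y2 _ => ?_)
  rw [Finset.sum_comm]
  unfold g0
  rw [Finset.mul_sum]
  refine Finset.sum_congr rfl (fun z _ => ?_)
  rw [← Finset.sum_mul]
  congr 1
  rw [← sum_shift z (fun x => ind D x (y + y2))]
  refine Finset.sum_congr rfl (fun x _ => ?_)
  rw [add_comm]

theorem conv_s0 (D : Finset (ZMod q × K)) :
    ∑ x : ZMod q, s0 D x * s0 D x = ∑ y : K, (Cnt D D (0, y) : ℤ) := by
  rw [Finset.sum_congr rfl (fun y _ => Cnt_conv_prod D D 0 y)]
  have h1 : ∀ y : K, ∑ y2 : K, ∑ z : ZMod q, ind D (0 + z) (y + y2) * ind D z y2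
      = ∑ z : ZMod q, ∑ y2 : K, ind D z (y + y2) * ind D z y2 := by
    intro y
    rw [Finset.sum_comm]
    simp only [zero_add]
  rw [Finset.sum_congr rfl (fun y _ => h1 y), Finset.sum_comm]
  refine Finset.sum_congr rfl (fun z _ => ?_)
  rw [Finset.sum_comm]
  unfold s0
  rw [Finset.mul_sum]
  refine Finset.sum_congr rfl (fun y2 _ => ?_)
  rw [← Finset.sum_mul]
  congr 1
  exact (Fintype.sum_equiv (Equiv.addRight y2) _ _ (fun _ => rfl)).symm

theorem conv_g0_ne {D : Finset (ZMod q × K)} {lam : ℕ} (hD : IsDS D lam) {y : K} (hy : y ≠ 0) :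
    ∑ y2 : K, g0 D (y + y2) * g0 D y2 = q * lam := by
  rw [conv_g0]
  have : ∀ x : ZMod q, (Cnt D D (x, y) : ℤ) = lam := by
    intro x
    rw [hD (x, y) (by intro h; exact hy (Prod.mk.inj h).2)]
  rw [Finset.sum_congr rfl (fun x _ => this x), Finset.sum_const, Finset.card_univ, ZMod.card,
    nsmul_eq_mul]

theorem conv_g0_zero {D : Finset (ZMod q × K)} {lam : ℕ} (hD : IsDS D lam) :
    ∑ y2 : K, g0 D y2 * g0 D y2 = D.card + (q - 1) * lam := by
  have h := conv_g0 D 0
  simp only [zero_add] at h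
  rw [h, ← Finset.add_sum_erase _ _ (Finset.mem_univ (0 : ZMod q))]
  have h0 : (Cnt D D ((0 : ZMod q), (0 : K)) : ℤ) = D.card := by
    exact_mod_cast Cnt_zero D
  have h1 : ∀ x ∈ Finset.univ.erase (0 : ZMod q), (Cnt D D (x, (0 : K)) : ℤ) = lam := by
    intro x hx
    rw [hD (x, 0) (by intro h; exact Finset.ne_of_mem_erase hx (Prod.mk.inj h).1)]
  rw [h0, Finset.sum_congr rfl h1, Finset.sum_const, Finset.card_erase_of_mem (Finset.mem_univ _),
    Finset.card_univ, ZMod.card, nsmul_eq_mul]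
  have : 0 < q := (Fact.out : q.Prime).pos
  push_cast [Nat.cast_sub this]
  ring

theorem conv_s0_zero {D : Finset (ZMod q × K)} {lam : ℕ} (hD : IsDS D lam) :
    ∑ x : ZMod q, s0 D x * s0 D x = D.card + (Fintype.card K - 1) * lam := by
  rw [conv_s0, ← Finset.add_sum_erase _ _ (Finset.mem_univ (0 : K))]
  have h0 : (Cnt D D ((0 : ZMod q), (0 : K)) : ℤ) = D.card := by
    exact_mod_cast Cnt_zero D
  have h1 : ∀ y ∈ Finset.univ.erase (0 : K), (Cnt D D ((0 : ZMod q), y) : ℤ) = lam := by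
    intro y hy
    rw [hD (0, y) (by intro h; exact Finset.ne_of_mem_erase hy (Prod.mk.inj h).2)]
  rw [h0, Finset.sum_congr rfl h1, Finset.sum_const, Finset.card_erase_of_mem (Finset.mem_univ _),
    Finset.card_univ, nsmul_eq_mul]
  have : 0 < Fintype.card K := Fintype.card_pos
  push_cast [Nat.cast_sub this]
  ring

/-- the equation for the projection on the first coordinate -/
theorem four_s0 (h4 : q % 4 = 3) {D : Finset (ZMod q × K)} (hD : QInv D) :
    4 * ∑ x : ZMod q, s0 D x * s0 D x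
      = 4 * (∑ y, ind D 0 y) ^ 2 + (q - 1) * ((∑ y, ee D y) ^ 2 + (∑ y, De D y) ^ 2) := by
  have hs0 : ∑ z : ZMod q, quadraticChar (ZMod q) z = 0 := quadraticChar_sum_zero (ringChar_ne_two h4)
  have h1 : ∀ x : ZMod q, x ≠ 0 → 2 * s0 D x = ∑ y, ee D y + quadraticChar (ZMod q) x * ∑ y, De D y := by
    intro x hx
    unfold s0
    rw [Finset.mul_sum, Finset.sum_congr rfl (fun y _ => ind_formula h4 hD x y)]
    rw [Finset.sum_add_distrib, Finset.sum_add_distrib, if_neg hx, ← Finset.mul_sum, ← Finset.mul_sum]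
    ring
  rw [← Finset.add_sum_erase _ _ (Finset.mem_univ (0 : ZMod q)), mul_add]
  have h2 : 4 * ∑ x ∈ Finset.univ.erase (0 : ZMod q), s0 D x * s0 D x
      = (q - 1) * ((∑ y, ee D y) ^ 2 + (∑ y, De D y) ^ 2) := by
    rw [Finset.mul_sum]
    have h3 : ∀ x ∈ Finset.univ.erase (0 : ZMod q), 4 * (s0 D x * s0 D x)
        = ((∑ y, ee D y) ^ 2 + (∑ y, De D y) ^ 2)
          + quadraticChar (ZMod q) x * (2 * (∑ y, ee D y) * ∑ y, De D y) := by
      intro x hx
      have hx0 := Finset.ne_of_mem_erase hx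
      have h5 := h1 x hx0
      have h6 : quadraticChar (ZMod q) x * quadraticChar (ZMod q) x = 1 := by
        have := quadraticChar_sq_one hx0
        rw [pow_two] at this
        exact this
      have : 4 * (s0 D x * s0 D x) = (2 * s0 D x) * (2 * s0 D x) := by ring
      rw [this, h5]
      linear_combination (∑ y, De D y) ^ 2 * h6
    rw [Finset.sum_congr rfl h3, Finset.sum_add_distrib, ← Finset.sum_mul, Finset.sum_const,
      Finset.card_erase_of_mem (Finset.mem_univ _), Finset.card_univ, ZMod.card, nsmul_eq_mul]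
    have h7 : ∑ x ∈ Finset.univ.erase (0 : ZMod q), quadraticChar (ZMod q) x = 0 := by
      have := Finset.add_sum_erase Finset.univ (fun x => quadraticChar (ZMod q) x)
        (Finset.mem_univ (0 : ZMod q))
      rw [hs0, MulChar.map_zero, zero_add] at this
      exact this
    rw [h7]
    have : 0 < q := (Fact.out : q.Prime).pos
    push_cast [Nat.cast_sub this]
    ring
  rw [h2]
  unfold s0
  ring

end

end Pool.Agent.MultConj
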