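import Pool.Agent.Lib.MP_5e14a0_co.Proj

set_option autoImplicit false
set_option linter.unusedSectionVars false
set_option linter.style.haveILetI false

namespace Pool.Agent.MultConj

section
variable {q : ℕ} [Fact q.Prime] {K : Type} [AddCommGroup K] [Fintype K] [DecidableEq K]

theorem ee_cases (D : Finset (ZMod q × K)) (y : K) : ee D y = 0 ∨ ee D y = 1 ∨ ee D y = 2 := by
  unfold ee
  rcases ind_01 D 1 y with h | h <;> rcases ind_01 D (-1) y with h' | h' <;> rw [h, h'] <;> simp

theorem lam_eq {D : Finset (ZMod q × K)} {lam : ℕ} (hds : IsDS D lam)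
    (hk : 2 * D.card + 1 = q * Fintype.card K) (hk0 : 0 < D.card) : D.card = 2 * lam + 1 := by
  have h := ds_count hds
  rw [Fintype.card_prod, ZMod.card, ← hk] at h
  have h2 : D.card * D.card = D.card * (2 * lam + 1) := by nlinarith
  exact Nat.eq_of_mul_eq_mul_left hk0 h2

theorem struct (h4 : q % 4 = 3) (h7 : 7 ≤ q) {D : Finset (ZMod q × K)} (hD : QInv D) {lam : ℕ}
    (hds : IsDS D lam) (hw : Fintype.card K + 5 < 2 * q)
    (hk : 2 * D.card + 1 = q * Fintype.card K) :
    (Fintype.card K = 1 ∧ ∀ y, ee D y = 1) ∨
    ∃ y0 : K, (Fintype.card K = q + 2 ∧ (∀ y, ee D y = 1 + if y = y0 then 1 else 0) ∧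
        (∀ y, ind D 0 y = if y = y0 then 1 else 0)) ∨
      (Fintype.card K + 2 = q ∧ (∀ y, ee D y = 1 - if y = y0 then 1 else 0) ∧
        (∀ y, ind D 0 y = 1)) := by
  set w := Fintype.card K with hwdef
  have hw0 : 0 < w := Fintype.card_pos
  have hk0 : 0 < D.card := by
    rcases Nat.eq_zero_or_pos D.card with h | h
    · rw [h] at hk
      have : q ∣ 1 := ⟨w, by omega⟩
      have := Nat.le_of_dvd one_pos this
      omega
    · exact h
  have hlam := lam_eq hds hk hk0
  have hqZ : (7 : ℤ) ≤ q := by exact_mod_cast h7
  have hkZ : 2 * (D.card : ℤ) + 1 = q * w := by exact_mod_cast hk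
  have hlZ : (D.card : ℤ) = 2 * lam + 1 := by exact_mod_cast hlam
  have hwZ : (w : ℤ) + 5 < 2 * q := by exact_mod_cast hw
  have hw0Z : (0 : ℤ) < w := by exact_mod_cast hw0
  have ha := fun y => ind_01 D 0 y
  have he := fun y => ee_cases D y
  have hg := fun y => two_g0 h4 hD y
  -- the basic identity
  have hsum1 : ∑ y : K, 2 * g0 D y = q * w - 1 := by
    rw [← Finset.mul_sum, ← card_eq_sum]; linarith
  have hsum2 : ∑ y : K, g0 D y * g0 D y = D.card + (q - 1) * lam := conv_g0_zero hds
  have hid : ∑ y : K, ((2 * g0 D y - (q : ℤ)) ^ 2 - 1) = ((q : ℤ) - 1) * ((w : ℤ) - 1) := by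
    have h1 : ∀ y : K, (2 * g0 D y - q) ^ 2 - 1
        = 4 * (g0 D y * g0 D y) - 2 * q * (2 * g0 D y) + (q ^ 2 - 1) := by intro y; ring
    rw [Finset.sum_congr rfl (fun y _ => h1 y), Finset.sum_add_distrib, Finset.sum_sub_distrib,
      ← Finset.mul_sum, ← Finset.mul_sum, hsum2, hsum1, Finset.sum_const, Finset.card_univ,
      nsmul_eq_mul, ← hwdef]
    have h2 : (lam : ℤ) * 4 = q * w - 3 := by linarith
    have h3 : (D.card : ℤ) * 2 = q * w - 1 := by linarith
    linear_combination 2 * h3 + (q - 1) * h2
  have hterm1 : ∀ y, ee D y = 1 → (2 * g0 D y - q) ^ 2 - 1 = 0 := by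
    intro y hy
    rw [hg, hy]
    rcases ha y with h | h <;> rw [h] <;> ring
  have hterm2 : ∀ y, ee D y ≠ 1 → (q - 1 : ℤ) * (q - 3) ≤ (2 * g0 D y - q) ^ 2 - 1 := by
    intro y hy
    rw [hg]
    rcases he y with h | h | h
    · rw [h]
      rcases ha y with h' | h' <;> rw [h'] <;> nlinarith
    · exact absurd h hy
    · rw [h]
      rcases ha y with h' | h' <;> rw [h'] <;> nlinarith
  set T := Finset.univ.filter (fun y : K => ee D y ≠ 1) with hT
  have hsplit : ∑ y : K, ((2 * g0 D y - (q : ℤ)) ^ 2 - 1) = ∑ y ∈ T, ((2 * g0 D y - (q : ℤ)) ^ 2 - 1) := by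
    rw [← Finset.sum_filter_add_sum_filter_not Finset.univ (fun y : K => ee D y ≠ 1)]
    have : ∑ y ∈ Finset.univ.filter (fun y : K => ¬ ee D y ≠ 1), ((2 * g0 D y - (q : ℤ)) ^ 2 - 1) = 0 := by
      apply Finset.sum_eq_zero
      intro y hy
      have := (Finset.mem_filter.mp hy).2
      push Not at this
      exact hterm1 y this
    rw [this, add_zero]
  have hTle : (T.card : ℤ) * ((q - 1) * (q - 3)) ≤ (q - 1) * (w - 1) := by
    rw [← hid, hsplit, ← nsmul_eq_mul]
    apply Finset.card_nsmul_le_sum
    intro y hy
    exact hterm2 y (Finset.mem_filter.mp hy).2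
  have hTcard : T.card ≤ 1 := by
    by_contra hc
    push Not at hc
    have h2 : (2 : ℤ) ≤ T.card := by exact_mod_cast hc
    have h3 : (2 : ℤ) * ((q - 1) * (q - 3)) ≤ (q - 1) * (w - 1) := by
      refine le_trans ?_ hTle
      apply mul_le_mul_of_nonneg_right h2
      nlinarith
    nlinarith
  rcases Nat.lt_or_eq_of_le hTcard with h | h
  · -- no exceptional point
    left
    have hTe : T = ∅ := Finset.card_eq_zero.mp (by omega)
    rw [hsplit, hTe, Finset.sum_empty] at hid
    constructor
    · have : (w : ℤ) - 1 = 0 := by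
        rcases mul_eq_zero.mp hid.symm with h | h
        · linarith
        · exact h
      have : (w : ℤ) = 1 := by linarith
      exact_mod_cast this
    · intro y
      by_contra hy
      have : y ∈ T := Finset.mem_filter.mpr ⟨Finset.mem_univ _, hy⟩
      rw [hTe] at this
      exact absurd this (Finset.notMem_empty _)
  · -- one exceptional point
    right
    obtain ⟨y0, hy0⟩ := Finset.card_eq_one.mp h
    refine ⟨y0, ?_⟩
    rw [hsplit, hy0, Finset.sum_singleton] at hid
    have hy0e : ee D y0 ≠ 1 := by
      have : y0 ∈ T := by rw [hy0]; exact Finset.mem_singleton_self _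
      exact (Finset.mem_filter.mp this).2
    have hother : ∀ y, y ≠ y0 → ee D y = 1 := by
      intro y hy
      by_contra hc
      have : y ∈ T := Finset.mem_filter.mpr ⟨Finset.mem_univ _, hc⟩
      rw [hy0] at this
      exact hy (Finset.mem_singleton.mp this)
    have hesum : ∑ y, ee D y = w + (ee D y0 - 1) := by
      rw [← Finset.add_sum_erase _ _ (Finset.mem_univ y0),
        Finset.sum_congr rfl (fun y hy => hother y (Finset.ne_of_mem_erase hy)), Finset.sum_const,
        Finset.card_erase_of_mem (Finset.mem_univ _), Finset.card_univ, nsmul_eq_mul, ← hwdef]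
      push_cast [Nat.cast_sub hw0]
      ring
    have hA : 2 * ∑ y, ind D 0 y = w - 1 - (q - 1) * (ee D y0 - 1) := by
      have h1 : ∑ y : K, 2 * g0 D y = 2 * ∑ y, ind D 0 y + (q - 1) * ∑ y, ee D y := by
        rw [Finset.sum_congr rfl (fun y _ => hg y), Finset.sum_add_distrib, ← Finset.mul_sum,
          ← Finset.mul_sum]
      rw [hsum1, hesum] at h1
      linarith
    have hAnn : 0 ≤ ∑ y, ind D 0 y := Finset.sum_nonneg (fun y _ => by
      rcases ha y with h | h <;> rw [h] <;> norm_num)
    rw [hg] at hid
    have hq1 : (q - 1 : ℤ) ≠ 0 := by linarith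
    rcases he y0 with h0 | h0 | h0
    · -- ee = 0
      rcases ha y0 with ha0 | ha0
      · -- a = 0 : excluded
        exfalso
        rw [h0, ha0] at hid
        have hwq : (w : ℤ) = q + 2 := by
          have : (q - 1 : ℤ) * (q + 1) = (q - 1) * (w - 1) := by linarith
          have := mul_left_cancel₀ hq1 this
          linarith
        -- H
        have hconst : ∀ y : K, y ≠ 0 → ∑ y2 : K, ((q : ℤ) + 1 - 2 * g0 D (y + y2)) * (q + 1 - 2 * g0 D y2)
            = w * (q + 1) ^ 2 - 2 * (q + 1) * (q * w - 1) + 4 * (q * lam) := by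
          intro y hy
          have h1 := conv_g0_ne hds hy
          have h2 : ∑ y2 : K, 2 * g0 D (y + y2) = q * w - 1 := by
            rw [← hsum1]
            exact Fintype.sum_equiv (Equiv.addLeft y) _ _ (fun _ => rfl)
          have h3 : ∀ y2 : K, ((q : ℤ) + 1 - 2 * g0 D (y + y2)) * (q + 1 - 2 * g0 D y2)
              = (q + 1) ^ 2 - (q + 1) * (2 * g0 D (y + y2)) - (q + 1) * (2 * g0 D y2)
                + 4 * (g0 D (y + y2) * g0 D y2) := by intro y2; ring
          have e1 : ∑ y2 : K, ((q : ℤ) + 1) * (2 * g0 D (y + y2)) = (q + 1) * (q * w - 1) := by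
            rw [← Finset.mul_sum, h2]
          have e2 : ∑ y2 : K, ((q : ℤ) + 1) * (2 * g0 D y2) = (q + 1) * (q * w - 1) := by
            rw [← Finset.mul_sum, hsum1]
          have e3 : ∑ y2 : K, 4 * (g0 D (y + y2) * g0 D y2) = 4 * (q * lam) := by
            rw [← Finset.mul_sum, h1]
          have e4 : ∑ _y2 : K, ((q : ℤ) + 1) ^ 2 = (w : ℤ) * ((q : ℤ) + 1) ^ 2 := by
            rw [Finset.sum_const, Finset.card_univ, nsmul_eq_mul, ← hwdef]
          rw [Finset.sum_congr rfl (fun y2 _ => h3 y2), Finset.sum_add_distrib,
            Finset.sum_sub_distrib, Finset.sum_sub_distrib, e1, e2, e3, e4]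
          ring
        -- values of H
        have hH0 : (q : ℤ) + 1 - 2 * g0 D y0 = q + 1 := by rw [hg, h0, ha0]; ring
        have hH1 : ∀ y, y ≠ y0 → (q : ℤ) + 1 - 2 * g0 D y = 2 * (1 - ind D 0 y) := by
          intro y hy
          rw [hg, hother y hy]; ring
        have hHnn : ∀ y, 0 ≤ (q : ℤ) + 1 - 2 * g0 D y := by
          intro y
          by_cases hy : y = y0
          · rw [hy, hH0]; linarith
          · rw [hH1 y hy]
            rcases ha y with h | h <;> rw [h] <;> norm_num
        -- second zero
        have hA2 : ∑ y ∈ Finset.univ.erase y0, (1 - ind D 0 y) = 1 := by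
          rw [Finset.sum_sub_distrib, Finset.sum_const, Finset.card_erase_of_mem (Finset.mem_univ _),
            Finset.card_univ, nsmul_eq_mul, ← hwdef]
          have h1 : ∑ y ∈ Finset.univ.erase y0, ind D 0 y = ∑ y, ind D 0 y := by
            rw [← Finset.add_sum_erase _ _ (Finset.mem_univ y0), ha0, zero_add]
          rw [h1]
          push_cast [Nat.cast_sub hw0]
          rw [h0] at hA
          linarith
        obtain ⟨y1, hy1, hy1a⟩ : ∃ y1, y1 ≠ y0 ∧ ind D 0 y1 = 0 := by
          by_contra hc
          push Not at hc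
          have : ∑ y ∈ Finset.univ.erase y0, (1 - ind D 0 y) = 0 := by
            apply Finset.sum_eq_zero
            intro y hy
            have h1 := hc y (Finset.ne_of_mem_erase hy)
            rcases ha y with h | h
            · exact absurd h h1
            · rw [h]; ring
          rw [this] at hA2
          norm_num at hA2
        have huniq : ∀ y, y ≠ y0 → y ≠ y1 → ind D 0 y = 1 := by
          intro y hy hyy
          rcases ha y with h | h
          · exfalso
            have hsub : ({y1, y} : Finset K) ⊆ Finset.univ.erase y0 := by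
              intro z hz
              rw [Finset.mem_insert, Finset.mem_singleton] at hz
              rcases hz with rfl | rfl
              · exact Finset.mem_erase.mpr ⟨hy1, Finset.mem_univ _⟩
              · exact Finset.mem_erase.mpr ⟨hy, Finset.mem_univ _⟩
            have h1 := Finset.sum_le_sum_of_subset_of_nonneg (f := fun y => 1 - ind D 0 y) hsub
              (fun z _ _ => by rcases ha z with h | h <;> rw [h] <;> norm_num)
            rw [Finset.sum_pair (Ne.symm hyy), hA2, hy1a, h] at h1
            norm_num at h1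
          · exact h
        have hHz : ∀ y, y ≠ y0 → y ≠ y1 → (q : ℤ) + 1 - 2 * g0 D y = 0 := by
          intro y hy hyy
          rw [hH1 y hy, huniq y hy hyy]; ring
        -- choose y*
        obtain ⟨ys, hys⟩ : ∃ ys : K, ys ∉ ({0, y1 - y0, y0 - y1} : Finset K) := by
          by_contra hc
          push Not at hc
          have h1 : (Finset.univ : Finset K) ⊆ {0, y1 - y0, y0 - y1} := fun z _ => hc z
          have h2 := Finset.card_le_card h1
          rw [Finset.card_univ, ← hwdef] at h2
          have h3 : ({0, y1 - y0, y0 - y1} : Finset K).card ≤ 3 := Finset.card_le_three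
          have h4' : w ≤ 3 := h2.trans h3
          have h5 : (w : ℤ) ≤ 3 := by exact_mod_cast h4'
          linarith
        rw [Finset.mem_insert, Finset.mem_insert, Finset.mem_singleton] at hys
        push Not at hys
        obtain ⟨hys0, hys1, hys2⟩ := hys
        have hc1 := hconst ys hys0
        have hc2 := hconst (y1 - y0) (sub_ne_zero.mpr hy1)
        have hz : ∑ y2 : K, ((q : ℤ) + 1 - 2 * g0 D (ys + y2)) * (q + 1 - 2 * g0 D y2) = 0 := by
          apply Finset.sum_eq_zero
          intro y2 _
          by_cases h2 : y2 = y0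
          · rw [h2, hHz (ys + y0) (fun h => hys0 (by simpa using h))
              (fun h => hys1 (by rw [← h]; abel)), zero_mul]
          · by_cases h3 : y2 = y1
            · rw [h3, hHz (ys + y1) (fun h => hys2 (by rw [← h]; abel))
                (fun h => hys0 (by simpa using h)), zero_mul]
            · rw [hHz y2 h2 h3, mul_zero]
        have hpos : 0 < ∑ y2 : K, ((q : ℤ) + 1 - 2 * g0 D (y1 - y0 + y2)) * (q + 1 - 2 * g0 D y2) := by
          apply Finset.sum_pos'
          · intro y2 _
            exact mul_nonneg (hHnn _) (hHnn _)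
          · refine ⟨y0, Finset.mem_univ _, ?_⟩
            rw [sub_add_cancel, hH0, hH1 y1 hy1, hy1a]
            nlinarith
        rw [hc2, ← hc1, hz] at hpos
        exact lt_irrefl _ hpos
      · -- a = 1
        right
        rw [h0, ha0] at hid
        have hwq : (w : ℤ) + 2 = q := by
          have : (q - 1 : ℤ) * (q - 3) = (q - 1) * (w - 1) := by linarith
          have := mul_left_cancel₀ hq1 this
          linarith
        refine ⟨by exact_mod_cast hwq, ?_, ?_⟩
        · intro y
          by_cases hy : y = y0
          · rw [hy, if_pos rfl, h0]; ring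
          · rw [if_neg hy, hother y hy]; ring
        · have h1 : ∑ y, (1 - ind D 0 y) = 0 := by
            rw [Finset.sum_sub_distrib, Finset.sum_const, Finset.card_univ, nsmul_eq_mul, ← hwdef]
            rw [h0] at hA
            linarith
          rw [Finset.sum_eq_zero_iff_of_nonneg (fun y _ => by
            rcases ha y with h | h <;> rw [h] <;> norm_num)] at h1
          intro y
          have := h1 y (Finset.mem_univ _)
          linarith
    · exact absurd h0 hy0e
    · -- ee = 2
      rcases ha y0 with ha0 | ha0
      · -- a = 0 : impossible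
        exfalso
        rw [h0, ha0] at hid
        have hwq : (w : ℤ) + 2 = q := by
          have : (q - 1 : ℤ) * (q - 3) = (q - 1) * (w - 1) := by linarith
          have := mul_left_cancel₀ hq1 this
          linarith
        rw [h0] at hA
        linarith
      · left
        rw [h0, ha0] at hid
        have hwq : (w : ℤ) = q + 2 := by
          have : (q - 1 : ℤ) * (q + 1) = (q - 1) * (w - 1) := by linarith
          have := mul_left_cancel₀ hq1 this
          linarith
        refine ⟨by exact_mod_cast hwq, ?_, ?_⟩
        · intro y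
          by_cases hy : y = y0
          · rw [hy, if_pos rfl, h0]; ring
          · rw [if_neg hy, hother y hy]; ring
        · have h1 : ∑ y ∈ Finset.univ.erase y0, ind D 0 y = 0 := by
            have h2 := Finset.add_sum_erase Finset.univ (fun y => ind D 0 y) (Finset.mem_univ y0)
            rw [h0] at hA
            rw [ha0] at h2
            linarith
          rw [Finset.sum_eq_zero_iff_of_nonneg (fun y _ => by
            rcases ha y with h | h <;> rw [h] <;> norm_num)] at h1
          intro y
          by_cases hy : y = y0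
          · rw [hy, if_pos rfl, ha0]
          · rw [if_neg hy]
            exact h1 y (Finset.mem_erase.mpr ⟨hy, Finset.mem_univ _⟩)

end

end Pool.Agent.MultConj
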